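import Pool.Agent.H68.SF.LT4
import Pool.Agent.H66.SF.LLE

/-! `T_LEN`: canonical enumerations of the levels. -/

set_option linter.unusedVariables false

open Ordinal Cardinal Order Set
open scoped ZFSet

namespace SF

/-- one step: enumeration of the definable subsets -/
noncomputable def lenS (En : V → V → V) (Dx : V → V → V → V) (e x A : V) : V :=
  enI (En e x) fun i => Dx x A i

/-- the enumerations of the levels -/
noncomputable def EH (En : V → V → V) (Dx : V → V → V → V) (g a A : V) (α : Ordinal.{0}) : V :=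
  enU (insert (ZFSet.pair ∅ g) (ZFSet.range fun β : Set.Iio α =>
    ZFSet.pair (insert β.1.toZFSet β.1.toZFSet)
      (lenS En Dx (EH En Dx g a A β.1) (Lh a A β.1) A)))
termination_by α
decreasing_by exact β.2

/-- the family of the enumerations -/
noncomputable def EHf (En : V → V → V) (Dx : V → V → V → V) (g a A : V) (α : Ordinal.{0}) : V :=
  insert (ZFSet.pair ∅ g) (ZFSet.range fun β : Set.Iio α =>
    ZFSet.pair (insert β.1.toZFSet β.1.toZFSet)
      (lenS En Dx (EH En Dx g a A β.1) (Lh a A β.1) A))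

theorem EH_eq (En : V → V → V) (Dx : V → V → V → V) (g a A : V) (α : Ordinal.{0}) :
    EH En Dx g a A α = enU (EHf En Dx g a A α) := by
  rw [EH]
  rfl

theorem mem_EHf {En : V → V → V} {Dx : V → V → V → V} {g a A : V} {α : Ordinal.{0}} {t : V} :
    t ∈ EHf En Dx g a A α ↔ t = ZFSet.pair (0 : Ordinal.{0}).toZFSet g ∨ ∃ β < α,
      t = ZFSet.pair (β + 1).toZFSet (lenS En Dx (EH En Dx g a A β) (Lh a A β) A) := by
  unfold EHf
  rw [ZFSet.mem_insert_iff, ZFSet.mem_range, Ordinal.toZFSet_zero]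
  refine or_congr_right ?_
  constructor
  · rintro ⟨β, rfl⟩
    exact ⟨β.1, β.2, by rw [Ordinal.toZFSet_add_one]⟩
  · rintro ⟨β, hβ, rfl⟩
    exact ⟨⟨β, hβ⟩, by rw [Ordinal.toZFSet_add_one]⟩

theorem enm_EH (hLEP : T_LEP) {Ix : V → V} {En : V → V → V} {Dx : V → V → V → V}
    (hDx : ∀ x A, Def x A = imS (Ix x) fun i => Dx x A i)
    (hEn : ∀ g x, Enm g x → Enm (En g x) (Ix x)) {g a A : V} (hg : Enm g a) (α : Ordinal.{0}) :
    Enm (EH En Dx g a A α) (Lh a A α) := by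
  induction α using WellFoundedLT.induction with
  | ind α ih =>
    have hS : ∀ β < α, Enm (lenS En Dx (EH En Dx g a A β) (Lh a A β) A) (Def (Lh a A β) A) := by
      intro β hβ
      rw [hDx]
      exact hLEP.2.1 _ _ _ (hEn _ _ (ih β hβ))
    rw [EH_eq]
    have h1 : Enm (EHf En Dx g a A α) (rg (EHf En Dx g a A α)) := by
      refine ⟨fun q hq => ?_, fun x y z hy hz => ?_, fun y hy => mem_rg.1 hy⟩
      · rcases mem_EHf.1 hq with rfl | ⟨β, hβ, rfl⟩
        · exact ⟨0, g, mem_rg.2 ⟨_, hq⟩, rfl⟩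
        · exact ⟨β + 1, _, mem_rg.2 ⟨_, hq⟩, rfl⟩
      · rcases mem_EHf.1 hy with h1 | ⟨β, hβ, h1⟩ <;> rcases mem_EHf.1 hz with h2 | ⟨β', hβ', h2⟩
        · rw [ZFSet.pair_inj] at h1 h2
          rw [h1.2, h2.2]
        · rw [ZFSet.pair_inj] at h1 h2
          have h3 := Ordinal.toZFSet_injective (h1.1.symm.trans h2.1)
          exact absurd h3.symm (Order.succ_ne_bot β')
        · rw [ZFSet.pair_inj] at h1 h2
          have h3 := Ordinal.toZFSet_injective (h1.1.symm.trans h2.1)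
          exact absurd h3 (Order.succ_ne_bot β)
        · rw [ZFSet.pair_inj] at h1 h2
          have h3 := Ordinal.toZFSet_injective (h1.1.symm.trans h2.1)
          have h4 : β = β' := Order.succ_injective h3
          subst h4
          rw [h1.2, h2.2]
    have h2 : ∀ t ∈ EHf En Dx g a A α, Enm (snd t) (rg (snd t)) := by
      intro t ht
      rcases mem_EHf.1 ht with rfl | ⟨β, hβ, rfl⟩
      · rw [snd_pair, enm_rg hg]
        exact hg
      · rw [snd_pair, enm_rg (hS β hβ)]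
        exact hS β hβ
    have h3 := hLEP.2.2 _ _ h1 h2
    have e : (⋃₀ (imS (EHf En Dx g a A α) fun t => rg (snd t)) : ZFSet) = Lh a A α := by
      ext x
      rw [ZFSet.mem_sUnion, mem_Lh]
      constructor
      · rintro ⟨z, hz, hx⟩
        obtain ⟨t, ht, rfl⟩ := mem_imS.1 hz
        rcases mem_EHf.1 ht with rfl | ⟨β, hβ, rfl⟩
        · rw [snd_pair, enm_rg hg] at hx
          exact Or.inl hx
        · rw [snd_pair, enm_rg (hS β hβ)] at hx
          exact Or.inr ⟨β, hβ, hx⟩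
      · rintro (hx | ⟨β, hβ, hx⟩)
        · refine ⟨_, mem_imS.2 ⟨_, mem_EHf.2 (Or.inl rfl), rfl⟩, ?_⟩
          rw [snd_pair, enm_rg hg]
          exact hx
        · refine ⟨_, mem_imS.2 ⟨_, mem_EHf.2 (Or.inr ⟨β, hβ, rfl⟩), rfl⟩, ?_⟩
          rw [snd_pair, enm_rg (hS β hβ)]
          exact hx
    rwa [e] at h3

theorem tm_EH (hLEQ : T_LEQ) (hLHT : T_LHT) {En : V → V → V} {Dx : V → V → V → V}
    (hDt : Tm ZFm (fun _ v => Dx (v 0) (v 1) (v 2))) (hEt : Tm ZFm (fun _ v => En (v 0) (v 1))) :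
    Tm ZFm (fun _ v => EH En Dx (v 1) (v 2) (v 3) (v 0).rank) := by
  have hL : ∀ f g h : (V → Prop) → (ℕ → V) → V, Tm ZFm f → Tm ZFm g → Tm ZFm h →
      Tm ZFm (fun M v => Lh (f M v) (g M v) (h M v).rank) := fun f g h hf hg hh =>
    Tm.at3 (F := fun _ x y z => Lh x y z.rank) hLHT hf hg hh
  refine tm_recu (ext := fun _ v => rkS (v 0))
    (Φ := fun _ u => enU (insert (ZFSet.pair ∅ (u 2)) (imS (rkS (u 1)) fun y =>
      ZFSet.pair (insert y y) (enI (En (app (u 0) y) (Lh (u 3) (u 4) y.rank))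
        fun i => Dx (Lh (u 3) (u 4) y.rank) (u 4) i))))
    ZFSet.rank (Tm.rkS (Tm.var 0)) ?_ ?_ ?_
  · have h1 : Tm ZFm (fun _ w => enI (En (app (w 1) (w 0)) (Lh (w 4) (w 5) (w 0).rank))
        fun i => Dx (Lh (w 4) (w 5) (w 0).rank) (w 5) i) := by
      refine (hLEQ.2.2 (fun _ w => En (app (w 1) (w 0)) (Lh (w 4) (w 5) (w 0).rank))
        (fun _ z => Dx (Lh (z 5) (z 6) (z 1).rank) (z 6) (z 0)) ?_ ?_).congr
          fun M k v hv => rfl
      · exact Tm.at2 (F := fun _ x y => En x y) hEt (Tm.app (Tm.var 1) (Tm.var 0))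
          (hL _ _ _ (Tm.var 4) (Tm.var 5) (Tm.var 0))
      · exact Tm.at3 (F := fun _ x y z => Dx x y z) hDt
          (hL _ _ _ (Tm.var 5) (Tm.var 6) (Tm.var 1)) (Tm.var 6) (Tm.var 0)
    have h2 : Tm ZFm (fun _ u => imS (rkS (u 1)) fun y =>
        ZFSet.pair (insert y y) (enI (En (app (u 0) y) (Lh (u 3) (u 4) y.rank))
          fun i => Dx (Lh (u 3) (u 4) y.rank) (u 4) i)) := by
      refine (Tm.image (f := fun _ u => rkS (u 1))
        (g := fun _ w => ZFSet.pair (insert (w 0) (w 0))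
          (enI (En (app (w 1) (w 0)) (Lh (w 4) (w 5) (w 0).rank))
            fun i => Dx (Lh (w 4) (w 5) (w 0).rank) (w 5) i)) (Tm.rkS (Tm.var 1))
        (Tm.pair (Tm.ins (Tm.var 0) (Tm.var 0)) h1)).congr fun M k v hv => rfl
    exact Tm.at1 (F := fun _ x => enU x) hLEQ.2.1 (Tm.ins (Tm.pair Tm.empty (Tm.var 2)) h2)
  · intro M k v hv y hy
    obtain ⟨β, hβ, rfl⟩ := Ordinal.mem_toZFSet_iff.1 hy
    rwa [Ordinal.rank_toZFSet]
  · intro M k v hv
    rw [EH_eq]
    congr 1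
    simp only [cons_zero, cons_succ]
    unfold EHf
    congr 1
    ext t
    rw [ZFSet.mem_range, mem_imS]
    constructor
    · rintro ⟨β, rfl⟩
      have hβ : β.1.toZFSet ∈ rkS (v 0) := Ordinal.mem_toZFSet_iff.2 ⟨β.1, β.2, rfl⟩
      refine ⟨β.1.toZFSet, hβ, ?_⟩
      rw [app_resS hβ, Ordinal.rank_toZFSet]
      rfl
    · rintro ⟨y, hy, rfl⟩
      have hy' := hy
      obtain ⟨β, hβ, rfl⟩ := Ordinal.mem_toZFSet_iff.1 hy'
      refine ⟨⟨β, hβ⟩, ?_⟩
      rw [app_resS hy, Ordinal.rank_toZFSet]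
      rfl

theorem pf_LEN (hLDX : T_LDX) (hLEP : T_LEP) (hLEQ : T_LEQ) (hLHT : T_LHT) : T_LEN := by
  intro M k a A g ha hA hg _ hga α hα
  obtain ⟨Ix, Dx, En, -, hDt, hEt, hDx, hEn⟩ := hLDX
  refine ⟨EH En Dx g a A α, ?_, enm_EH hLEP hDx hEn hga α⟩
  have h1 := (tm_EH hLEQ hLHT hDt hEt).1 M k (cons α.toZFSet (cons g (cons a fun _ => A)))
    (by
      intro i
      rcases i with _ | _ | _ | i
      · exact hα
      · exact hg
      · exact ha
      · exact hA)
  have h2 : M (EH En Dx g a A α.toZFSet.rank) := h1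
  rwa [Ordinal.rank_toZFSet] at h2

end SF
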