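import Pool.Agent.H68.SF.LT3

open Ordinal Cardinal Order Set
open scoped ZFSet

namespace SF

theorem pf_LEX (hLVV : T_LVV) (hLCD : T_LCD) (hLDC : T_LDC) (hLCI : T_LCI) (hLZF : T_LZF) :
    T_LEX := by
  intro p
  obtain ⟨A, ρ, ξ, hA, -, -, -, hd⟩ := hLCD (fun _ => True) hLVV p trivial
  set ν : Ordinal.{0} := max (A.rank + 6) (max ρ ξ) with hν
  set κ : Cardinal.{0} := succ (max ℵ₀ ν.card) with hκ
  have hreg : κ.IsRegular := isRegular_succ (le_max_left _ _)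
  have h0 : ℵ₀ < κ := lt_of_le_of_lt (le_max_left _ _) (lt_succ _)
  have hlt : ∀ o : Ordinal.{0}, o ≤ ν → o < κ.ord := by
    intro o ho
    rw [Cardinal.lt_ord]
    exact lt_of_le_of_lt ((Ordinal.card_le_card ho).trans (le_max_right _ _)) (lt_succ _)
  have hAr : A.rank + 5 < κ.ord := by
    refine lt_of_lt_of_le ?_ (hlt (A.rank + 6) (le_max_left _ _)).le
    exact (add_lt_add_iff_left _).2 (by norm_num)
  have hAM : A ∈ LA A κ.ord := hLCI A hA _ hAr
  have hZ : ZFm (· ∈ LA A κ.ord) := hLZF κ hreg h0 ∅ A (fun x hx => absurd hx (ZFSet.notMem_empty x))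
    (by rw [ZFSet.card_empty]; exact hreg.pos)
  refine ⟨κ, A, hreg, h0, hAM, ?_⟩
  have hρ : ρ.toZFSet ∈ LA A κ.ord := ord_mem_Lh
    (fun x hx => absurd hx (ZFSet.notMem_empty x)) (hlt ρ ((le_max_left _ _).trans (le_max_right _ _)))
  have hξ : ξ.toZFSet ∈ LA A κ.ord := ord_mem_Lh
    (fun x hx => absurd hx (ZFSet.notMem_empty x)) (hlt ξ ((le_max_right _ _).trans (le_max_right _ _)))
  have hi : ZFSet.pair ρ.toZFSet ξ.toZFSet ∈ LA A κ.ord := hZ.mpair hρ hξ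
  have h1 := hLDC.2.1 _ hZ (cons A fun _ => ZFSet.pair ρ.toZFSet ξ.toZFSet) (by
    intro i
    cases i with
    | zero => exact hAM
    | succ i => exact hi)
  have h2 : dec A (ZFSet.pair ρ.toZFSet ξ.toZFSet) ∈ LA A κ.ord := h1
  rwa [hd] at h2

end SF
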