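import Pool.Agent.H68.SF.LT3

/-! The witness of the fullness of a countable set can be chosen countable. -/

open Ordinal Cardinal Order Set
open scoped ZFSet

namespace SF.H68

open SF

theorem lfc_reg : Dfb ZFm (fun M v => ∀ x ∈ v 0, ∀ h, M h → (ZFSet.IsFunc x (v 0) h →
    ∃ z ∈ v 0, ∀ y, M y → (y ∈ z ↔ y ∈ v 0 ∧ ∃ u ∈ x, ZFSet.pair u y ∈ h))) := by
  have h1 : Dfb ZFm (fun _ v => ∃ u ∈ v 3, ZFSet.pair u (v 0) ∈ v 2) :=
    (Dfb.bex (R := fun _ v => ZFSet.pair (v 0) (v 1) ∈ v 3) ktr_zfm (Tm.var 3)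
      (Dfb.pairMem (Tm.var 0) (Tm.var 1) (Tm.var 3))).congr fun M k v hv => Iff.rfl
  have h2 : Dfb ZFm (fun _ v => (v 0 ∈ v 1 ↔ v 0 ∈ v 4 ∧ ∃ u ∈ v 3, ZFSet.pair u (v 0) ∈ v 2)) :=
    (Dfb.mem (Tm.var 0) (Tm.var 1)).iff ((Dfb.mem (Tm.var 0) (Tm.var 4)).and h1)
  have h3 := Dfb.bex ktr_zfm (Tm.var 2) h2.all
  have h4 := ((Dfb.isFunc (Tm.var 1) (Tm.var 2) (Tm.var 0)).imp h3).all
  exact (Dfb.ball ktr_zfm (Tm.var 0) h4).congr fun M k v hv => Iff.rfl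

theorem lfc_ctb {x : V} : (x : Set V).Countable ↔ x.card ≤ ℵ₀ := by
  rw [← Cardinal.le_aleph0_iff_set_countable]
  have h3 : Cardinal.mk (x : Set V) = Cardinal.lift.{1, 0} x.card :=
    ZFSet.cardinalMk_coe_sort (x := x)
  rw [h3, ← lift_aleph0.{1, 0}]
  exact lift_le

theorem lfc (hLLS : T_LLS) (hLCO : T_LCO) (hLED : T_LED) (hLEZ : T_LEZ) (hLHT : T_LHT)
    (hLHE : T_LHE) : ∀ N : V, (N : Set V).Countable → Full (fun _ => True) N →
    ∀ W : V → Prop, (∀ γ < Ordinal.omega.{0} 1, W γ.toZFSet) → Full W N := by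
  intro N hNc hN W hW
  obtain ⟨hNt, hω, γ0, -, hMC, hreg⟩ := hN
  obtain ⟨M, hM⟩ : ∃ M, M = LN N γ0 := ⟨_, rfl⟩
  rw [← hM] at hMC hreg
  have hMt : M.IsTransitive := fun x hx y hy => hMC.trans x hx y hy
  have hMZ : ZFm (· ∈ M) := hMC.toZFm
  have hit : (insert N N : V).IsTransitive := by
    intro x hx y hy
    rw [ZFSet.mem_insert_iff] at hx ⊢
    right
    rcases hx with rfl | hx
    · exact hy
    · exact hNt x hx hy
  have hisub : insert N N ⊆ M := hM ▸ sub_Lh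
  have hNM : N ∈ M := hisub (ZFSet.mem_insert_iff.2 (Or.inl rfl))
  have hiM : insert N N ∈ M :=
    (Tm.ins (Tm.var 0) (Tm.var 0)).1 _ hMZ (fun _ => N) (fun _ => hNM)
  have hγ0 : IsSuccLimit γ0 := by
    have h1 := hLHE (insert N N) ∅ γ0 hit (by
      have : Lh (insert N N) ∅ γ0 = M := hM.symm
      rw [this]
      exact hMZ) (by
      have : Lh (insert N N) ∅ γ0 = M := hM.symm
      rw [this]
      exact hiM) (by
      have : Lh (insert N N) ∅ γ0 = M := hM.symm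
      rw [this]
      exact hMZ.mempty)
    exact h1.1
  -- a countable elementary submodel and its collapse
  have hic : (insert N N : V).card < ℵ₁ := by
    rw [← succ_aleph0, lt_succ_iff]
    exact lfc_ctb.1 (by rw [ZFSet.coe_insert]; exact hNc.insert N)
  obtain ⟨X, hXM, hSX, hXc, -⟩ := hLLS ℵ₁ isRegular_aleph_one aleph0_lt_aleph_one M (insert N N)
    ⟨N, hNM⟩ hisub hic (fun _ => ∅)
    (fun x hx => ⟨by
      rw [ZFSet.card_empty]
      exact isRegular_aleph_one.pos, fun y hy => absurd hy (ZFSet.notMem_empty y)⟩)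
  obtain ⟨X', f₀, hX't, hel, himg, hcard, hmem, hfix⟩ := hLCO M X hMt ⟨N, hNM⟩ hXM
  obtain ⟨hNX, hN'⟩ := hfix (insert N N) hit hSX N (ZFSet.mem_insert_iff.2 (Or.inl rfl))
  have hX'C : ZFCm (· ∈ X') := (hLEZ X' M f₀ ⟨N, hNX⟩ hX't hel).2 hMC
  have hX'Z : ZFm (· ∈ X') := hX'C.toZFm
  -- the height
  obtain ⟨γ, hγ⟩ : ∃ γ : Ordinal.{0}, ∀ α : Ordinal.{0}, α.toZFSet ∈ X' ↔ α < γ := by
    have hne : {α : Ordinal.{0} | α.toZFSet ∉ X'}.Nonempty := by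
      refine ⟨X'.rank, fun h => ?_⟩
      have h1 := ZFSet.rank_lt_of_mem h
      rw [Ordinal.rank_toZFSet] at h1
      exact lt_irrefl _ h1
    refine ⟨sInf {α : Ordinal.{0} | α.toZFSet ∉ X'}, fun α => ⟨fun h => ?_, fun h => ?_⟩⟩
    · by_contra h2
      rw [not_lt] at h2
      refine csInf_mem hne ?_
      rcases h2.eq_or_lt with h3 | h3
      · exact h3 ▸ h
      · exact hX't _ h (Ordinal.toZFSet_mem_toZFSet_iff.2 h3)
    · by_contra h2
      exact absurd h (not_lt.2 (csInf_le' h2))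
  have hγlim : IsSuccLimit γ := by
    rw [Ordinal.isSuccLimit_iff]
    refine ⟨?_, ?_⟩
    · have h1 := (hγ _).1 hX'Z.inf
      exact (lt_of_le_of_lt zero_le h1).ne'
    · refine Order.isSuccPrelimit_of_succ_lt fun α hα => ?_
      rw [← hγ] at hα ⊢
      have h1 := (Tm.ins (Tm.var 0) (Tm.var 0)).1 _ hX'Z (fun _ => α.toZFSet) (fun _ => hα)
      rw [Order.succ_eq_add_one, Ordinal.toZFSet_add_one]
      exact h1
  have hγ1 : γ < Ordinal.omega.{0} 1 := by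
    have h1 : γ.toZFSet.card ≤ X'.card := ZFSet.card_mono fun x hx => by
      obtain ⟨α, hα, rfl⟩ := Ordinal.mem_toZFSet_iff.1 hx
      exact (hγ α).2 hα
    rw [Ordinal.card_toZFSet, hcard] at h1
    have h2 : γ.card < ℵ₁ := lt_of_le_of_lt h1 hXc
    rw [← Cardinal.ord_aleph]
    exact Cardinal.lt_ord.2 h2
  have tL : Tm ZFm (fun _ v => Lh (insert (v 0) (v 0)) ∅ (v 1).rank) := by
    have h1 := Tm.at3 (F := fun _ x y z => Lh x y z.rank) hLHT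
      (Tm.ins (Tm.var 0) (Tm.var 0)) Tm.empty (Tm.var 1)
    exact h1
  have hX'L : X' = LN N γ := by
    ext x
    constructor
    · intro hx
      have hd : Dfb ZFm (fun M v => ∀ x, M x → ∃ α, M α ∧ (IsOrd α ∧
          x ∈ Lh (insert (v 0) (v 0)) ∅ α.rank)) := by
        have h1 : Dfb ZFm (fun _ v => IsOrd (v 0) ∧ v 1 ∈ Lh (insert (v 2) (v 2)) ∅ (v 0).rank) :=
          (Dfb.isOrd (Tm.var 0)).and (Dfb.mem (Tm.var 1)
            (Tm.at2 (F := fun _ x y => Lh (insert x x) ∅ y.rank) tL (Tm.var 2) (Tm.var 0)))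
        exact h1.ex.all.congr fun M k v hv => Iff.rfl
      have h2 := (hLED ZFm _ hd X' M f₀ hel hX'Z hMZ (fun _ => N) (fun _ => hNX)).2 (by
        intro z hz
        show ∃ α, α ∈ M ∧ (IsOrd α ∧ z ∈ Lh (insert (app f₀ N) (app f₀ N)) ∅ α.rank)
        rw [hN']
        rw [hM] at hz
        obtain ⟨β, hβ, hzβ⟩ := (mem_Lh_limit hγ0).1 hz
        refine ⟨β.toZFSet, ?_, ⟨β, rfl⟩, ?_⟩
        · rw [hM]
          exact ord_mem_Lh hit hβ
        · rw [Ordinal.rank_toZFSet]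
          exact hzβ)
      obtain ⟨_, hα, ⟨α, rfl⟩, hxα⟩ := h2 x hx
      rw [Ordinal.rank_toZFSet] at hxα
      exact (mem_Lh_limit hγlim).2 ⟨α, (hγ α).1 hα, hxα⟩
    · intro hx
      obtain ⟨α, hα, hxα⟩ := (mem_Lh_limit hγlim).1 hx
      have h1 := tL.1 _ hX'Z (cons N fun _ => α.toZFSet)
        (In.cons (M := (· ∈ X')) (fun _ => (hγ α).2 hα) hNX)
      have h2 : Lh (insert N N) ∅ α.toZFSet.rank ∈ X' := h1
      rw [Ordinal.rank_toZFSet] at h2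
      exact hX't _ h2 hxα
  refine ⟨hNt, hω, γ, hW γ hγ1, hX'L ▸ hX'C, ?_⟩
  rw [← hX'L]
  have h1 := (hLED ZFm _ lfc_reg X' M f₀ hel hX'Z hMZ (fun _ => N) (fun _ => hNX)).2 (by
    show ∀ x ∈ app f₀ N, ∀ h, h ∈ M → (ZFSet.IsFunc x (app f₀ N) h →
      ∃ z ∈ app f₀ N, ∀ y, y ∈ M → (y ∈ z ↔ y ∈ app f₀ N ∧ ∃ u ∈ x, ZFSet.pair u y ∈ h))
    rw [hN']
    intro x hx h hh hfun
    refine ⟨rnF N x h, hreg x hx h hh hfun, fun y _ => ?_⟩
    exact ZFSet.mem_sep)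
  intro x hx h hh hfun
  obtain ⟨z, hz, hz2⟩ := h1 x hx h hh hfun
  have e : (N.sep fun y => ∃ u ∈ x, ZFSet.pair u y ∈ h) = z := by
    ext y
    rw [ZFSet.mem_sep]
    constructor
    · intro hy
      exact (hz2 y (hX't _ hNX hy.1)).2 hy
    · intro hy
      exact (hz2 y (hX't _ (hX't _ hNX hz) hy)).1 hy
  rw [e]
  exact hz

end SF.H68
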