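import Pool.Agent.H68.SF.LIN

/-! `T_LRS`: restriction of an elementary map to the constructible parts. -/

set_option linter.unusedVariables false

open Ordinal Cardinal Order Set
open scoped ZFSet

namespace SF

/-- the constructible closure in a set model of known height -/
theorem CLL_height {M A : V} {τ : Ordinal.{0}} (k : ZFm (· ∈ M))
    (hτ : ∀ α : Ordinal.{0}, α.toZFSet ∈ M ↔ α < τ) (x : V) :
    CLL (· ∈ M) ∅ A x ↔ x ∈ LA A τ := by
  have hlim : IsSuccLimit τ := by
    have h0 : (0 : Ordinal.{0}) < τ := by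
      rw [← hτ 0, Ordinal.toZFSet_zero]
      exact k.mempty
    rw [Ordinal.isSuccLimit_iff]
    exact ⟨h0.ne', isSuccPrelimit_of_succ_lt fun α hα => (hτ _).1 (k.msucc ((hτ α).2 hα))⟩
  show (∃ α : Ordinal.{0}, α.toZFSet ∈ M ∧ x ∈ Lh ∅ A α) ↔ x ∈ Lh ∅ A τ
  rw [mem_Lh_limit hlim]
  constructor
  · rintro ⟨α, hα, hx⟩
    exact ⟨α, (hτ α).1 hα, hx⟩
  · rintro ⟨α, hα, hx⟩
    exact ⟨α, (hτ α).2 hα, hx⟩

theorem pf_LRS (hLHT : T_LHT) (hLED : T_LED) : T_LRS := by
  intro M' M A' A f kM' kM hel hA' hfA τ' τ hτ' hτ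
  have he : app f ∅ = ∅ := by
    have h1 := (hLED ZFm _ (Dfb.ne (Tm.var 0)) M' M f hel kM' kM (fun _ => ∅)
      (fun _ => kM'.mempty))
    by_contra hne
    have h2 : (app f ∅).Nonempty := by
      rw [ZFSet.nonempty_def]
      by_contra h3
      push Not at h3
      exact hne ((ZFSet.eq_empty _).2 h3)
    obtain ⟨z, hz⟩ := (ZFSet.nonempty_def _).1 (h1.2 h2)
    exact ZFSet.notMem_empty _ hz
  have e1 : (fun x => CLL (· ∈ M') ∅ A' x) = (· ∈ LA A' τ') := by
    funext x
    exact propext (CLL_height kM' hτ' x)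
  have e2 : (fun x => CLL (· ∈ M) ∅ A x) = (· ∈ LA A τ) := by
    funext x
    exact propext (CLL_height kM hτ x)
  have hin : ∀ x ∈ LA A' τ', x ∈ M' := by
    intro x hx
    obtain ⟨α, hα, hxα⟩ := (CLL_height kM' hτ' x).2 hx
    exact kM'.trans _ (mLh' hLHT kM' kM'.mempty hA' hα) x hxα
  constructor
  · intro x hx
    have h1 := hLED ZFm _ (dfb_CLL hLHT) M' M f hel kM' kM
      (cons x (cons ∅ fun _ => A')) (by
        intro i
        rcases i with _ | _ | i
        · exact hin x hx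
        · exact kM'.mempty
        · exact hA')
    have h2 : CLL (· ∈ M') ∅ A' x ↔ CLL (· ∈ M) (app f ∅) (app f A') (app f x) := h1
    rw [he, hfA] at h2
    exact (CLL_height kM hτ _).1 (h2.1 ((CLL_height kM' hτ' x).2 hx))
  · intro φ v hv
    have h1 := hLED ZFm _ (lin_rel hLHT φ) M' M f hel kM' kM
      (cons ∅ (cons A' v)) (by
        intro i
        rcases i with _ | _ | i
        · exact kM'.mempty
        · exact hA'
        · exact hin _ (hv i))
    have h2 : Sat (CLL (· ∈ M') ∅ A') φ v ↔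
      Sat (CLL (· ∈ M) (app f ∅) (app f A')) φ fun i => app f (v i) := h1
    rw [he, hfA] at h2
    have e1' : CLL (· ∈ M') ∅ A' = (· ∈ LA A' τ') := e1
    have e2' : CLL (· ∈ M) ∅ A = (· ∈ LA A τ) := e2
    rw [e1', e2'] at h2
    exact h2

end SF
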