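import Pool.Agent.H68.SF.LDX
import Pool.Agent.H68.SF.LEX
import Pool.Agent.H68.SF.LEN
import Pool.Agent.H68.SF.LRS
import Pool.Agent.H68.SF.LFC
import Pool.Agent.H84.SF.LAR
import Pool.Agent.H84.SF.LBS
import Pool.Agent.H42.SF.LCA
import Pool.Agent.H42.SF.LCH
import Pool.Agent.H36.SF.LCD
import Pool.Agent.H36.SF.LFN
import Pool.Agent.H36.SF.LFU
import Pool.Agent.H36.SF.LNP
import Pool.Agent.H4.SF.LCE
import Pool.Agent.H67.SF.LCI
import Pool.Agent.H67.SF.LMI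
import Pool.Agent.H67.SF.LVV
import Pool.Agent.H58.SF.LCO
import Pool.Agent.H58.SF.LLS
import Pool.Agent.H17.SF.LDC
import Pool.Agent.H17.SF.LEQ
import Pool.Agent.H17.SF.LNG
import Pool.Agent.H16.SF.LED
import Pool.Agent.H65.SF.LEO
import Pool.Agent.H65.SF.LEP
import Pool.Agent.H14.SF.LEZ
import Pool.Agent.H14.SF.LHE
import Pool.Agent.H66.SF.LLE
import Pool.Agent.H78.SF.LPR
import Pool.Agent.H1.SF.LRI
import Pool.Agent.H33.SF.LZF
import Pool.Agent.H7.SF.REFL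
import Pool.Agent.H62.SF.FA
import Pool.Agent.H62.SF.FB
import Pool.Agent.H62.SF.FC
import Pool.Agent.H4.SF.FD
import Pool.Agent.H4.SF.FF
import Pool.Agent.H89.SF.FE
import Pool.Agent.H3.SF.FG
import Pool.Agent.H3.SF.FI
import Pool.Agent.H31.SF.FH
import Pool.Agent.H33.SF.FJ
import Pool.Agent.H12.SF.FL
import Pool.Agent.H20.SF.FM

/-! Assembly of part L. -/

namespace SF.H68

open SF

theorem aFA : T_FA := SF.H62.fa
theorem aFB : T_FB := SF.H62.fb aFA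
theorem aFC : T_FC := SF.H62.fc aFB
theorem aFD : T_FD := SF.H4.fd aFA
theorem aFE : T_FE := SF.H89.fe
theorem aFF : T_FF := SF.H4.ff aFA aFB aFE
theorem aFG : T_FG := SF.H3.fg aFC aFD aFE aFF
theorem aFH : T_FH := SF.H31.fh
theorem aFI : T_FI := SF.H3.FI.fi aFC aFG aFH
theorem aFJ : T_FJ := SF.H33.fj aFI aFH
theorem aFL : T_FL := SF.H12.fl
theorem aFN : T_FN := SF.H20.fn

theorem aRKT : T_RKT := pf_RKT
theorem aLHT : T_LHT := pf_LHT
theorem aREFL : T_REFL := pf_REFL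
theorem aLCA : T_LCA := pf_LCA
theorem aLCH : T_LCH := pf_LCH aLCA
theorem aLZF : T_LZF := SF.H33.lzf aLCA aLCH
theorem aLLS : T_LLS := SF.H58.lls
theorem aLCO : T_LCO := SF.H58.lco
theorem aLED : T_LED := pf_LED
theorem aLET : T_LET := pf_LET
theorem aLEZ : T_LEZ := pf_LEZ aLED
theorem aLHE : T_LHE := pf_LHE aLHT
theorem aLAR : T_LAR := pf_LAR aRKT
theorem aLEO : T_LEO := pf_LEO
theorem aLEP : T_LEP := pf_LEP
theorem aLEQ : T_LEQ := pf_LEQ aLAR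
theorem aLLE : T_LLE := pf_LLE aLEP aLEQ
theorem aLCE : T_LCE := SF.H4.lce aLEP aLEQ
theorem aLDX : T_LDX := pf_LDX aLEP aLEQ aLLE aLCE
theorem aLDC : T_LDC := pf_LDC
theorem aLCD : T_LCD := pf_LCD aRKT aLDC
theorem aLCI : T_LCI := pf_LCI
theorem aLVV : T_LVV := pf_LVV
theorem aLRI : T_LRI := pf_LRI
theorem aLBS : T_LBS := pf_LBS aLCA aLZF aLLS aLCO aLED aLEZ aLHT
theorem aLPR : T_LPR := SF.H78.lpr aLHT aLHE aLED aLEZ
theorem aLEX : T_LEX := pf_LEX aLVV aLCD aLDC aLCI aLZF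
theorem aLEN : T_LEN := pf_LEN aLDX aLEP aLEQ aLHT
theorem aLIN : T_LIN := pf_LIN aLHT
theorem aLRS : T_LRS := pf_LRS aLHT aLED
theorem aLMI : T_LMI := pf_LMI aLCD aLDC aLCI aLIN aLHT aRKT
theorem aLFN : T_LFN := pf_LFN aLCA aLZF aLEN aLEO aLBS
theorem aLNP : T_LNP := pf_LNP aLEX aLFN aLLS aLCO aLED aLET aLEZ aLHT
theorem aLFU : T_LFU := pf_LFU aLRI aLHT aLIN aLHE aFC aFG aFI aFJ aFL aFN
theorem aLNG : T_LNG := pf_LNG aLMI aLHT aLHE aFI aFJ aFL aFN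

end SF.H68
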