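import Pool.Agent.H84.SF.Geo
import Pool.Agent.H78.LV.Ge
import Pool.Agent.H64.SC.Api

/-! HMK: the homomorphism to the function field of a curve at a place with the centre `s`. -/

set_option autoImplicit false

namespace Pool.Agent.H68.SF

open MvPolynomial SC
open Pool.Agent.H27.LV (ge deg poleOrder canDeg)
open Pool.Agent.H92.OD (HS cf sg uu Lat geO IsO DF DD)
open Pool.Agent.H84.SM (y1 y2 Near cr dt)
open Pool.Agent.H84.SF
open Pool.Agent.H27.LV.Ge

section

variable {k K σ : Type} [Field k] [Field K] [Algebra k K]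

lemma hmk_scale (z : σ → K) (c : K) {b : MvPolynomial σ k} {d : ℕ} (hb : b.IsHomogeneous d) :
    aeval (fun i => c * z i) b = c ^ d * aeval z b := by
  simp only [aeval_def, eval₂_eq]
  rw [Finset.mul_sum]
  refine Finset.sum_congr rfl fun m hm => ?_
  have h1 : ∑ i ∈ m.support, m i = d := by
    have := hb (mem_support_iff.1 hm)
    rw [Finsupp.weight_apply] at this
    simpa [Finsupp.sum] using this
  simp only [mul_pow]
  rw [Finset.prod_mul_distrib, Finset.prod_pow_eq_pow_sum, h1]
  ring

lemma hmk_near (v : DV k K) (y : σ → K) (s : σ → k)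
    (h : ∀ i, ge v 1 (y i - algebraMap k K (s i))) (f : MvPolynomial σ k) :
    ge v 1 (aeval y f - algebraMap k K (eval s f)) := by
  induction f using MvPolynomial.induction_on with
  | C a =>
    rw [algHom_C, eval_C, sub_self]
    exact ge_zero v _
  | add p q hp hq =>
    have := ge_add v hp hq
    rw [map_add, map_add, map_add]
    refine (Eq.mp ?_ this)
    congr 1
    ring
  | mul_X p i hp =>
    have h0 : ge v 0 (aeval y p) := by
      have h1 := ge_add v (ge_mono v zero_le_one hp) (ge_algebraMap v (eval s p))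
      rwa [sub_add_cancel] at h1
    have h2 := ge_mul v h0 (h i)
    have h3 := ge_mul v hp (ge_algebraMap v (s i))
    rw [zero_add] at h2
    rw [add_zero] at h3
    have h4 := ge_add v h2 h3
    rw [map_mul, map_mul, aeval_X, eval_X, map_mul]
    refine (Eq.mp ?_ h4)
    congr 1
    ring

lemma hmk_const (v : DV k K) {c : k} (h : ge v 1 (algebraMap k K c)) : c = 0 := by
  rcases h with h | h
  · exact (map_eq_zero _).1 h
  · rw [v.ord_base] at h
    omega

lemma hmk_unit (v : DV k K) (y : σ → K) (s : σ → k)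
    (h : ∀ i, ge v 1 (y i - algebraMap k K (s i))) {b : MvPolynomial σ k} (hb : eval s b ≠ 0) :
    aeval y b ≠ 0 ∧ v.ord (aeval y b) = 0 := by
  have h1 := hmk_near v y s h b
  have h0 : ge v 0 (aeval y b) := by
    have h2 := ge_add v (ge_mono v zero_le_one h1) (ge_algebraMap v (eval s b))
    rwa [sub_add_cancel] at h2
  have h2 : ¬ ge v 1 (aeval y b) := by
    intro h3
    have h4 := ge_add v h3 (ge_neg v h1)
    rw [neg_sub, add_sub_cancel] at h4
    exact hb (hmk_const v h4)
  have h3 : aeval y b ≠ 0 := fun h3 => h2 (Or.inl h3)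
  refine ⟨h3, ?_⟩
  have h4 := ge_imp v h0 h3
  by_contra hne
  exact h2 (Or.inr (by omega))

end

theorem pf_HMK : T_HMK := by
  classical
  intro k F σ K _ _ _ _ _ Xc s hC z hz v c hc hs
  -- quotients
  have hdef : ∀ h : Os Xc s, ∃ (d : ℕ) (a b : MvPolynomial σ k), Rep Xc (h : F) d a b ∧
      eval s b ≠ 0 := fun h => h.2
  choose dd aa bb hrep hbb using hdef
  have hy : ∀ {b : MvPolynomial σ k}, eval s b ≠ 0 →
      aeval (fun i => c * z i) b ≠ 0 ∧ v.ord (aeval (fun i => c * z i) b) = 0 := fun hb =>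
    hmk_unit v _ s hs hb
  have hzb : ∀ {b : MvPolynomial σ k} {d : ℕ}, b.IsHomogeneous d → eval s b ≠ 0 →
      aeval z b ≠ 0 := by
    intro b d hb h0 h1
    have h2 := (hy h0).1
    rw [hmk_scale z c hb, h1, mul_zero] at h2
    exact h2 rfl
  set xf : Os Xc s → K := fun h => aeval z (aa h) / aeval z (bb h) with hxf
  have key : ∀ (h : Os Xc s) (d : ℕ) (a b : MvPolynomial σ k), Rep Xc (h : F) d a b →
      xf h * aeval z b = aeval z a := by
    intro h d a b hab
    have h0 := hzb (hrep h).2.1 (hbb h)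
    have h1 : aeval Xc (aa h * b - a * bb h) = 0 := by
      rw [map_sub, map_mul, map_mul, ← (hrep h).2.2, ← hab.2.2]
      ring
    have h2 := hz _ h1
    rw [map_sub, map_mul, map_mul, sub_eq_zero] at h2
    rw [hxf]
    simp only
    rw [div_mul_eq_mul_div, div_eq_iff h0, h2]
  have uniq : ∀ (h : Os Xc s) (d : ℕ) (a b : MvPolynomial σ k), Rep Xc (h : F) d a b →
      aeval z b ≠ 0 → ∀ w : K, w * aeval z b = aeval z a → xf h = w := by
    intro h d a b hab hb w hw
    have h1 := key h d a b hab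
    rw [← hw] at h1
    exact mul_right_cancel₀ hb h1
  have hone : xf 1 = 1 := by
    refine uniq 1 0 1 1 ⟨isHomogeneous_one _ _, isHomogeneous_one _ _, ?_⟩ (by simp) 1 (by simp)
    simp
  have hzero : xf 0 = 0 := by
    refine uniq 0 0 0 1 ⟨isHomogeneous_zero _ _ _, isHomogeneous_one _ _, ?_⟩ (by simp) 0 (by simp)
    simp
  have hmul : ∀ h h', xf (h * h') = xf h * xf h' := by
    intro h h'
    obtain ⟨ha, hb, he⟩ := hrep h
    obtain ⟨ha', hb', he'⟩ := hrep h'
    have n1 := hzb hb (hbb h)
    have n2 := hzb hb' (hbb h')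
    refine uniq (h * h') (dd h + dd h') (aa h * aa h') (bb h * bb h')
      ⟨ha.mul ha', hb.mul hb', ?_⟩ ?_ _ ?_
    · rw [map_mul, map_mul, ← he, ← he']
      push_cast
      ring
    · rw [map_mul]
      exact mul_ne_zero n1 n2
    · rw [map_mul, map_mul, ← key h _ _ _ (hrep h), ← key h' _ _ _ (hrep h')]
      ring
  have hadd : ∀ h h', xf (h + h') = xf h + xf h' := by
    intro h h'
    obtain ⟨ha, hb, he⟩ := hrep h
    obtain ⟨ha', hb', he'⟩ := hrep h'
    have n1 := hzb hb (hbb h)
    have n2 := hzb hb' (hbb h')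
    refine uniq (h + h') (dd h + dd h') (aa h * bb h' + bb h * aa h') (bb h * bb h')
      ⟨(ha.mul hb').add (hb.mul ha'), hb.mul hb', ?_⟩ ?_ _ ?_
    · rw [map_mul, map_add, map_mul, map_mul, ← he, ← he']
      push_cast
      ring
    · rw [map_mul]
      exact mul_ne_zero n1 n2
    · rw [map_mul, map_add, map_mul, map_mul, ← key h _ _ _ (hrep h), ← key h' _ _ _ (hrep h')]
      ring
  have hcomm : ∀ r : k, xf (algebraMap k (Os Xc s) r) = algebraMap k K r := by
    intro r
    refine uniq _ 0 (C r) 1 ⟨isHomogeneous_C _ _, isHomogeneous_one _ _, ?_⟩ (by simp) _ ?_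
    · rw [map_one, mul_one, algHom_C]
      rfl
    · rw [map_one, mul_one, algHom_C]
  have hcx : ∀ h : Os Xc s, xf h * aeval (fun i => c * z i) (bb h) =
      aeval (fun i => c * z i) (aa h) := by
    intro h
    rw [hmk_scale z c (hrep h).1, hmk_scale z c (hrep h).2.1, ← key h _ _ _ (hrep h)]
    ring
  have hdiv : ∀ (h : Os Xc s) (t : ℤ), ge v t (aeval (fun i => c * z i) (aa h)) → ge v t (xf h) := by
    intro h t ht
    obtain ⟨n1, n2⟩ := hy (hbb h)
    by_cases h0 : xf h = 0
    · exact Or.inl h0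
    · right
      rw [← hcx h] at ht
      have h1 := ge_imp v ht (mul_ne_zero h0 n1)
      rwa [v.ord_mul _ _ h0 n1, n2, add_zero] at h1
  refine ⟨{ toFun := xf, map_one' := hone, map_mul' := hmul, map_zero' := hzero,
            map_add' := hadd, commutes' := hcomm }, key, ?_, ?_⟩
  · intro h
    refine hdiv h 0 ?_
    have h1 := hmk_near v _ s hs (aa h)
    have h2 := ge_add v (ge_mono v zero_le_one h1) (ge_algebraMap v (eval s (aa h)))
    rwa [sub_add_cancel] at h2
  · intro ε hε h h0
    refine hdiv h 1 ?_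
    have h1 := hmk_near v _ s hs (aa h)
    have h2 := hε h _ _ _ (hrep h)
    rw [h0, zero_mul] at h2
    rwa [← h2, map_zero, sub_zero] at h1

end Pool.Agent.H68.SF
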