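import Pool.Agent.H84.SF.Loc

/-! APX: approximation by polynomials. -/

set_option autoImplicit false

namespace Pool.Agent.H68.SF

open MvPolynomial SC
open Pool.Agent.H27.LV (ge deg poleOrder canDeg)
open Pool.Agent.H92.OD (HS cf sg uu Lat geO IsO DF DD)
open Pool.Agent.H84.SM (y1 y2 Near)
open Pool.Agent.H84.SF

theorem pf_APX : T_APX := by
  intro k O _ _ _ ε X G dX dG hF N
  induction N with
  | zero =>
    intro h
    exact ⟨0, h, by simp, by simp⟩
  | succ N ih =>
    intro h
    obtain ⟨a, b, hab⟩ := (hF.max (h - algebraMap k O (ε h))).1 (by simp)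
    obtain ⟨Pa, ra, hra, ha⟩ := ih a
    obtain ⟨Pb, rb, hrb, hb⟩ := ih b
    have hX : X ∈ Ideal.span {X, G} := Ideal.subset_span (by simp)
    have hG : G ∈ Ideal.span {X, G} := Ideal.subset_span (by simp)
    refine ⟨C (ε h) + Pa * MvPolynomial.X 0 + Pb * MvPolynomial.X 1, ra * X + rb * G, ?_, ?_⟩
    · rw [pow_succ]
      exact Ideal.add_mem _ (Ideal.mul_mem_mul hra hX) (Ideal.mul_mem_mul hrb hG)
    · have h1 : h = algebraMap k O (ε h) + (a * X + b * G) := by
        rw [← hab]
        ring
      simp only [map_add, map_mul, aeval_C, aeval_X, Matrix.cons_val_zero, Matrix.cons_val_one]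
      conv_lhs => rw [h1, ha, hb]
      ring

end Pool.Agent.H68.SF
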