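import Pool.Agent.H68.SF.HMK

/-! MXI: the maximal ideal is generated by `L1 / L0` and `G / L0 ^ m`. -/

set_option autoImplicit false

namespace Pool.Agent.H68.SF

open MvPolynomial SC
open Pool.Agent.H27.LV (ge deg poleOrder canDeg)
open Pool.Agent.H92.OD (HS cf sg uu Lat geO IsO DF DD)
open Pool.Agent.H84.SM (y1 y2 Near cr dt)
open Pool.Agent.H84.SF

section

variable {k O σ : Type} [Field k] [CommRing O] [Algebra k O] [Fintype σ] [DecidableEq σ]

/-- Taylor expansion modulo the square of an ideal -/
lemma mxi_taylor (M : Ideal O) (Y : σ → O) (t : σ → k)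
    (h : ∀ j, Y j - algebraMap k O (t j) ∈ M) (f : MvPolynomial σ k) :
    aeval Y f - algebraMap k O (eval t f) -
      ∑ j, algebraMap k O (eval t (pderiv j f)) * (Y j - algebraMap k O (t j)) ∈ M * M := by
  induction f using MvPolynomial.induction_on with
  | C a =>
    simp only [algHom_C, eval_C, pderiv_C, map_zero, zero_mul, Finset.sum_const_zero, sub_self]
    exact Ideal.zero_mem _
  | add p q hp hq =>
    have h1 := Ideal.add_mem _ hp hq
    have h2 : aeval Y (p + q) - algebraMap k O (eval t (p + q)) -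
      ∑ j, algebraMap k O (eval t (pderiv j (p + q))) * (Y j - algebraMap k O (t j)) =
      (aeval Y p - algebraMap k O (eval t p) -
        ∑ j, algebraMap k O (eval t (pderiv j p)) * (Y j - algebraMap k O (t j))) +
      (aeval Y q - algebraMap k O (eval t q) -
        ∑ j, algebraMap k O (eval t (pderiv j q)) * (Y j - algebraMap k O (t j))) := by
      simp only [map_add, add_mul, Finset.sum_add_distrib]
      ring
    rw [h2]
    exact h1
  | mul_X p i hp =>
    set S : O := ∑ j, algebraMap k O (eval t (pderiv j p)) * (Y j - algebraMap k O (t j)) with hS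
    have hSM : S ∈ M := Ideal.sum_mem _ fun j _ => Ideal.mul_mem_left _ _ (h j)
    have h2 : aeval Y (p * X i) - algebraMap k O (eval t (p * X i)) -
      ∑ j, algebraMap k O (eval t (pderiv j (p * X i))) * (Y j - algebraMap k O (t j)) =
      (aeval Y p - algebraMap k O (eval t p) - S) * Y i + S * (Y i - algebraMap k O (t i)) := by
      have h3 : ∑ j, algebraMap k O (eval t (pderiv j (p * X i))) * (Y j - algebraMap k O (t j)) =
          S * algebraMap k O (t i) + algebraMap k O (eval t p) * (Y i - algebraMap k O (t i)) := by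
        have h4 : ∀ j, algebraMap k O (eval t (pderiv j (p * X i))) *
            (Y j - algebraMap k O (t j)) =
            algebraMap k O (eval t (pderiv j p)) * (Y j - algebraMap k O (t j)) *
              algebraMap k O (t i) +
            if j = i then algebraMap k O (eval t p) * (Y j - algebraMap k O (t j)) else 0 := by
          intro j
          rw [Derivation.leibniz, smul_eq_mul, smul_eq_mul, pderiv_X]
          by_cases hji : j = i
          · subst hji
            simp only [Pi.single_eq_same, if_true, map_add, map_mul, eval_X, map_one]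
            ring
          · rw [if_neg hji, Pi.single_eq_of_ne (Ne.symm hji)]
            simp only [mul_zero, zero_add, map_mul, eval_X]
            ring
        rw [Finset.sum_congr rfl fun j _ => h4 j, Finset.sum_add_distrib, ← Finset.sum_mul,
          Finset.sum_ite_eq' Finset.univ i, if_pos (Finset.mem_univ _)]
      rw [h3, map_mul, map_mul, aeval_X, eval_X, map_mul]
      ring
    rw [h2]
    exact Ideal.add_mem _ (Ideal.mul_mem_right _ _ hp) (Ideal.mul_mem_mul hSM (h i))

end

lemma mxi_ae {k σ : Type} [Field k] (t : σ → k) (b : MvPolynomial σ k) :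
    aeval t b = eval t b := by
  rw [aeval_def, Algebra.algebraMap_self, eval₂_id]

lemma mxi_eval {k σ : Type} [Field k] (t : σ → k) (c : k) {b : MvPolynomial σ k} {d : ℕ}
    (hb : b.IsHomogeneous d) : eval (fun i => c * t i) b = c ^ d * eval t b := by
  have h := hmk_scale t c hb
  rwa [mxi_ae, mxi_ae] at h

theorem pf_MXI : T_MXI := by
  intro k F σ _ _ _ _ _ _ Xc s G L0 L1 P i0 i1 i2 m hC hm hG hF ε hun hε hN X Gs hX hGs
  have hL0 : aeval Xc L0 ≠ 0 := fun h => hF.v0 (hC.pt _ h)
  set ℓ : F := aeval Xc L0 with hℓ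
  have hcs : eval s L0 ≠ 0 := hF.v0
  set c : k := (eval s L0)⁻¹ with hc
  have hc0 : c ≠ 0 := inv_ne_zero hcs
  have hXe : ε X = 0 := by
    have h1 := hε X 1 L1 L0 ⟨hF.l1, hF.l0, hX⟩
    rw [hF.v1] at h1
    exact (mul_eq_zero.1 h1).resolve_right hcs
  have hGe : ε Gs = 0 := by
    have h1 := hε Gs m G (L0 ^ m) ⟨hG, by simpa using hF.l0.pow m, by rw [map_pow]; exact hGs⟩
    rw [hF.v2, map_pow] at h1
    exact (mul_eq_zero.1 h1).resolve_right (pow_ne_zero _ hcs)
  -- the generators
  set Y : σ → Os Xc s := fun j => ⟨Xc j / ℓ, 1, MvPolynomial.X j, L0,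
    ⟨isHomogeneous_X _ _, hF.l0, by rw [aeval_X, ← hℓ]; field_simp⟩, hcs⟩ with hY
  set t : σ → k := fun j => c * s j with ht
  have hYv : ∀ j, ((Y j : Os Xc s) : F) = ℓ⁻¹ * Xc j := by
    intro j
    rw [hY]
    simp only
    rw [div_eq_inv_mul]
  have hYε : ∀ j, ε (Y j) = t j := by
    intro j
    have h1 := hε (Y j) 1 (MvPolynomial.X j) L0
      ⟨isHomogeneous_X _ _, hF.l0, by rw [hYv, aeval_X, ← hℓ]; field_simp⟩
    rw [eval_X] at h1
    rw [ht, hc]
    simp only
    rw [← h1]
    field_simp
  have hae : ∀ (f : MvPolynomial σ k) (d : ℕ), f.IsHomogeneous d →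
      ((aeval Y f : Os Xc s) : F) * ℓ ^ d = aeval Xc f := by
    intro f d hf
    have h1 : ((aeval Y f : Os Xc s) : F) = aeval (fun j => ((Y j : Os Xc s) : F)) f :=
      comp_aeval_apply Y (Os Xc s).val f
    rw [h1]
    simp only [hYv]
    rw [hmk_scale Xc ℓ⁻¹ hf, mul_right_comm, ← mul_pow, inv_mul_cancel₀ hL0, one_pow, one_mul]
  have hεa : ∀ f : MvPolynomial σ k, ε (aeval Y f) = eval t f := by
    intro f
    rw [comp_aeval_apply Y ε f]
    simp only [hYε]
    rw [mxi_ae]
  -- the maximal ideal
  set M : Ideal (Os Xc s) := RingHom.ker ε.toRingHom with hM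
  have hmem : ∀ h, h ∈ M ↔ ε h = 0 := fun h => RingHom.mem_ker
  have hy : ∀ j, Y j - algebraMap k (Os Xc s) (t j) ∈ M := by
    intro j
    rw [hmem, map_sub, hYε, AlgHom.commutes]
    exact sub_self _
  have hT := mxi_taylor M Y t hy
  set N : Ideal (Os Xc s) := Ideal.span {X, Gs} with hNd
  have hXN : X ∈ N := Ideal.subset_span (by simp)
  have hGN : Gs ∈ N := Ideal.subset_span (by simp)
  have hXM : X ∈ M := (hmem X).2 hXe
  have hGM : Gs ∈ M := (hmem Gs).2 hGe
  set y : σ → Os Xc s := fun j => Y j - algebraMap k (Os Xc s) (t j) with hyd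
  have hrow : ∀ (f : MvPolynomial σ k) (h : Os Xc s), aeval Y f - algebraMap k (Os Xc s) (eval t f) = h →
      h ∈ N → ∑ j, algebraMap k (Os Xc s) (eval t (pderiv j f)) * y j ∈ N ⊔ M * M := by
    intro f h h1 h2
    have h3 := hT f
    rw [h1] at h3
    have h4 : ∑ j, algebraMap k (Os Xc s) (eval t (pderiv j f)) * y j =
        h - (h - ∑ j, algebraMap k (Os Xc s) (eval t (pderiv j f)) * y j) := by ring
    rw [h4]
    exact Ideal.sub_mem _ (Ideal.mem_sup_left h2) (Ideal.mem_sup_right h3)
  have hinj : ∀ a b : Os Xc s, (a : F) = b → a = b := fun a b h => Subtype.ext h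
  have hA : ∀ i, ∑ j, algebraMap k (Os Xc s) (eval t (pderiv j (P i))) * y j ∈ N ⊔ M * M := by
    intro i
    by_cases h0 : i = i0
    · rw [h0, hF.e0]
      refine hrow L0 0 ?_ (Ideal.zero_mem _)
      have h1 : aeval Y L0 = (1 : Os Xc s) := by
        refine hinj _ _ ?_
        have := hae L0 1 hF.l0
        rw [pow_one] at this
        have h2 : ((aeval Y L0 : Os Xc s) : F) = 1 := mul_right_cancel₀ hL0 (by rw [this, one_mul])
        rw [h2]
        rfl
      have h2 : eval t L0 = 1 := by
        rw [ht, mxi_eval s c hF.l0, pow_one, hc, inv_mul_cancel₀ hcs]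
      rw [h1, h2, map_one, sub_self]
    · by_cases h1 : i = i1
      · rw [h1, hF.e1]
        refine hrow L1 X ?_ hXN
        have h1 : aeval Y L1 = X := by
          refine hinj _ _ ?_
          have := hae L1 1 hF.l1
          rw [pow_one, ← hX] at this
          exact mul_right_cancel₀ hL0 this
        have h2 : eval t L1 = 0 := by
          rw [ht, mxi_eval s c hF.l1, hF.v1, mul_zero]
        rw [h1, h2, map_zero, sub_zero]
      · by_cases h2 : i = i2
        · rw [h2, hF.e2]
          refine hrow G Gs ?_ hGN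
          have h1 : aeval Y G = Gs := by
            refine hinj _ _ ?_
            have := hae G m hG
            rw [← hGs] at this
            exact mul_right_cancel₀ (pow_ne_zero m hL0) this
          have h2 : eval t G = 0 := by
            rw [ht, mxi_eval s c hG, hF.v2, mul_zero]
          rw [h1, h2, map_zero, sub_zero]
        · obtain ⟨d, -, hd⟩ := hF.hom i
          have hv := hF.van i h0 h1 h2
          refine hrow (P i) 0 ?_ (Ideal.zero_mem _)
          have h3 : aeval Y (P i) = (0 : Os Xc s) := by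
            refine hinj _ _ ?_
            have := hae (P i) d hd
            rw [hv] at this
            have h2 := (mul_eq_zero.1 this).resolve_right (pow_ne_zero d hL0)
            rw [h2]
            rfl
          have h4 : eval t (P i) = 0 := by
            rw [ht, mxi_eval s c hd, hC.pt _ hv, mul_zero]
          rw [h3, h4, map_zero, sub_zero]
  -- the matrix
  set A : Matrix σ σ k := Matrix.of fun i j => eval t (pderiv j (P i)) with hAd
  choose e he1 he2 using hF.hom
  have hAdet : A.det ≠ 0 := by
    have h1 : A = Matrix.diagonal (fun i => c ^ (e i - 1)) *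
        Matrix.of fun i j => eval s (pderiv j (P i)) := by
      ext i j
      rw [Matrix.diagonal_mul, hAd, Matrix.of_apply, Matrix.of_apply, ht,
        mxi_eval s c ((he2 i).pderiv)]
    rw [h1, Matrix.det_mul, Matrix.det_diagonal]
    exact mul_ne_zero (Finset.prod_ne_zero_iff.2 fun i _ => pow_ne_zero _ hc0) hF.det
  have hyN : ∀ j, y j ∈ N ⊔ M * M := by
    intro j
    have hinv : A⁻¹ * A = 1 := Matrix.nonsing_inv_mul A (isUnit_iff_ne_zero.2 hAdet)
    have h1 : y j = ∑ i, algebraMap k (Os Xc s) (A⁻¹ j i) *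
        ∑ l, algebraMap k (Os Xc s) (A i l) * y l := by
      have h2 : ∀ i, algebraMap k (Os Xc s) (A⁻¹ j i) *
          ∑ l, algebraMap k (Os Xc s) (A i l) * y l =
          ∑ l, algebraMap k (Os Xc s) (A⁻¹ j i * A i l) * y l := by
        intro i
        rw [Finset.mul_sum]
        refine Finset.sum_congr rfl fun l _ => ?_
        rw [map_mul]
        ring
      rw [Finset.sum_congr rfl fun i _ => h2 i, Finset.sum_comm]
      have h3 : ∀ l, ∑ i, algebraMap k (Os Xc s) (A⁻¹ j i * A i l) * y l =
          if l = j then y l else 0 := by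
        intro l
        rw [← Finset.sum_mul, ← map_sum, ← Matrix.mul_apply, hinv, Matrix.one_apply]
        by_cases hjl : j = l
        · rw [if_pos hjl, if_pos hjl.symm, map_one, one_mul]
        · rw [if_neg hjl, if_neg (Ne.symm hjl), map_zero, zero_mul]
      rw [Finset.sum_congr rfl fun l _ => h3 l, Finset.sum_ite_eq' Finset.univ j,
        if_pos (Finset.mem_univ _)]
    rw [h1]
    exact Ideal.sum_mem _ fun i _ => Ideal.mul_mem_left _ _ (hA i)
  have hMle : M ≤ N ⊔ M • M := by
    intro h hh
    rw [smul_eq_mul]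
    obtain ⟨d, a, b, hab, hb⟩ := h.2
    have h1 : h * aeval Y b = aeval Y a := by
      refine hinj _ _ ?_
      have h2 := hae a d hab.1
      have h3 := hae b d hab.2.1
      have h4 := hab.2.2
      rw [← h2, ← h3, ← mul_assoc] at h4
      have h5 := mul_right_cancel₀ (pow_ne_zero d hL0) h4
      push_cast
      exact h5
    have hub : IsUnit (aeval Y b) := by
      refine hun _ ?_
      rw [hεa, ht, mxi_eval s c hab.2.1]
      exact mul_ne_zero (pow_ne_zero _ hc0) hb
    have ha0 : eval t a = 0 := by
      rw [← hεa, ← h1, map_mul, (hmem h).1 hh, zero_mul]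
    have h2 := hT a
    rw [ha0, map_zero, sub_zero] at h2
    have h3 : aeval Y a ∈ N ⊔ M * M := by
      have h4 : aeval Y a = (aeval Y a - ∑ j, algebraMap k (Os Xc s) (eval t (pderiv j a)) * y j) +
          ∑ j, algebraMap k (Os Xc s) (eval t (pderiv j a)) * y j := by ring
      rw [h4]
      exact Ideal.add_mem _ (Ideal.mem_sup_right h2)
        (Ideal.sum_mem _ fun j _ => Ideal.mul_mem_left _ _ (hyN j))
    rw [← h1] at h3
    obtain ⟨u, hu⟩ := hub
    rw [← hu] at h3
    have h5 := Ideal.mul_mem_right (↑u⁻¹ : Os Xc s) _ h3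
    rwa [mul_assoc, Units.mul_inv, mul_one] at h5
  have hjac : M ≤ Ideal.jacobson ⊥ := by
    intro h hh
    rw [Ideal.mem_jacobson_bot]
    intro z
    refine hun _ ?_
    rw [map_add, map_mul, (hmem h).1 hh, zero_mul, zero_add, map_one]
    exact one_ne_zero
  have hfin : M ≤ N := Submodule.le_of_le_smul_of_le_jacobson_bot (hN.noetherian M) hjac hMle
  intro h
  constructor
  · intro h0
    obtain ⟨a, b, hab⟩ := Ideal.mem_span_pair.1 (hfin ((hmem h).2 h0))
    exact ⟨a, b, hab.symm⟩
  · rintro ⟨a, b, rfl⟩
    rw [map_add, map_mul, map_mul, hXe, hGe, mul_zero, mul_zero, add_zero]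

end Pool.Agent.H68.SF
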