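import Pool.Agent.H68.SF.VQE
import Pool.Agent.H51.SM.ELM

/-! RST: elimination of `w`. -/

set_option autoImplicit false

open MvPolynomial SC Pool.Agent.H27.LV
open Pool.Agent.H84.SM (dp cr dt)
open Pool.Agent.H92.SF Pool.Agent.H3.SF

namespace Pool.Agent.H68.SF

section Op

variable {k F : Type} [Field k] [Field F] [Algebra k F]

lemma q2_ind {L : Type} [CommRing L] {M : Q2 L → Prop} (hadd : ∀ V W, M V → M W → M (V + W))
    (hmon : ∀ (j : ℕ) (a : Fin 2 →₀ ℕ) (z : L), M (Polynomial.monomial j (monomial a z)))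
    (V : Q2 L) : M V := by
  induction V using Polynomial.induction_on' with
  | add p q hp hq => exact hadd _ _ hp hq
  | monomial j r =>
    induction r using MvPolynomial.induction_on' with
    | monomial a z => exact hmon j a z
    | add p q hp hq =>
      rw [map_add]
      exact hadd _ _ hp hq

lemma q2_ext {L : Type} [CommRing L] {V W : Q2 L}
    (h : ∀ (j : ℕ) (a : Fin 2 →₀ ℕ), (V.coeff j).coeff a = (W.coeff j).coeff a) : V = W := by
  refine Polynomial.ext fun j => ?_
  exact MvPolynomial.ext _ _ (h j)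

/-- the weight of a monomial -/
def wgt (p q : ℤ) (j : ℕ) (a : Fin 2 →₀ ℕ) : ℤ := p * j + q * (a 0 + a 1 : ℕ)

lemma wgt_add (p q : ℤ) (j j' : ℕ) (a a' : Fin 2 →₀ ℕ) :
    wgt p q (j + j') (a + a') = wgt p q j a + wgt p q j' a' := by
  unfold wgt
  simp only [Finsupp.add_apply]
  push_cast
  ring

/-- existence of the operator, as a linear map -/
lemma exDD (E : Derivation k F F) (p q : ℤ) : ∃ T : Q2 F →ₗ[k] Q2 F,
    ∀ (V : Q2 F) (j : ℕ) (a : Fin 2 →₀ ℕ), ((T V).coeff j).coeff a =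
      E ((V.coeff j).coeff a) + (wgt p q j a : F) * (V.coeff j).coeff a := by
  classical
  have h1 : ∀ V : Q2 F, ∃ W : Q2 F, ∀ (j : ℕ) (a : Fin 2 →₀ ℕ), (W.coeff j).coeff a =
      E ((V.coeff j).coeff a) + (wgt p q j a : F) * (V.coeff j).coeff a := by
    intro V
    refine ⟨∑ i ∈ V.support, Polynomial.monomial i (∑ b ∈ (V.coeff i).support,
      monomial b (E ((V.coeff i).coeff b) + (wgt p q i b : F) * (V.coeff i).coeff b)),
      fun j a => ?_⟩
    rw [Polynomial.finsetSum_coeff]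
    simp only [Polynomial.coeff_monomial]
    rw [Finset.sum_ite_eq' V.support j]
    by_cases hj : j ∈ V.support
    · rw [if_pos hj, coeff_sum]
      simp only [coeff_monomial]
      rw [Finset.sum_ite_eq' (V.coeff j).support a]
      by_cases ha : a ∈ (V.coeff j).support
      · rw [if_pos ha]
      · rw [if_neg ha, notMem_support_iff.1 ha, map_zero, mul_zero, add_zero]
    · rw [if_neg hj, coeff_zero, Polynomial.notMem_support_iff.1 hj, coeff_zero, map_zero,
        mul_zero, add_zero]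
  choose f hf using h1
  refine ⟨{ toFun := f, map_add' := fun V W => q2_ext fun j a => ?_,
            map_smul' := fun c V => q2_ext fun j a => ?_ }, hf⟩
  · rw [hf, Polynomial.coeff_add, coeff_add, Polynomial.coeff_add, coeff_add, hf, hf, map_add]
    ring
  · have hs : ∀ W : Q2 F, ((c • W).coeff j).coeff a = algebraMap k F c * (W.coeff j).coeff a := by
      intro W
      rw [Polynomial.coeff_smul, coeff_smul, Algebra.smul_def]
    rw [hf, hs, RingHom.id_apply, hs, hf, ← Algebra.smul_def, Derivation.map_smul,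
      Algebra.smul_def, Algebra.smul_def]
    ring

/-- the operator -/
noncomputable def DD (E : Derivation k F F) (p q : ℤ) : Q2 F →ₗ[k] Q2 F :=
  Classical.choose (exDD E p q)

lemma DD_coeff (E : Derivation k F F) (p q : ℤ) (V : Q2 F) (j : ℕ) (a : Fin 2 →₀ ℕ) :
    ((DD E p q V).coeff j).coeff a =
      E ((V.coeff j).coeff a) + (wgt p q j a : F) * (V.coeff j).coeff a :=
  Classical.choose_spec (exDD E p q) V j a

lemma mono_coeff (j : ℕ) (a : Fin 2 →₀ ℕ) (z : F) (i : ℕ) (b : Fin 2 →₀ ℕ) :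
    ((Polynomial.monomial j (monomial a z) : Q2 F).coeff i).coeff b =
      if j = i ∧ a = b then z else 0 := by
  classical
  rw [Polynomial.coeff_monomial]
  by_cases hj : j = i
  · rw [if_pos hj, coeff_monomial]
    by_cases ha : a = b
    · rw [if_pos ha, if_pos ⟨hj, ha⟩]
    · rw [if_neg ha, if_neg fun h => ha h.2]
  · rw [if_neg hj, coeff_zero, if_neg fun h => hj h.1]

lemma DD_mono (E : Derivation k F F) (p q : ℤ) (j : ℕ) (a : Fin 2 →₀ ℕ) (z : F) :
    DD E p q (Polynomial.monomial j (monomial a z)) =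
      Polynomial.monomial j (monomial a (E z + (wgt p q j a : F) * z)) := by
  refine q2_ext fun i b => ?_
  rw [DD_coeff, mono_coeff, mono_coeff]
  by_cases h : j = i ∧ a = b
  · rw [if_pos h, if_pos h, h.1, h.2]
  · rw [if_neg h, if_neg h, map_zero, mul_zero, add_zero]

lemma mono_mul (j j' : ℕ) (a a' : Fin 2 →₀ ℕ) (z z' : F) :
    (Polynomial.monomial j (monomial a z) * Polynomial.monomial j' (monomial a' z') : Q2 F) =
      Polynomial.monomial (j + j') (monomial (a + a') (z * z')) := by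
  rw [Polynomial.monomial_mul_monomial, monomial_mul]

lemma DD_mul (E : Derivation k F F) (p q : ℤ) (V W : Q2 F) :
    DD E p q (V * W) = DD E p q V * W + V * DD E p q W := by
  induction V using q2_ind with
  | hadd V V' h h' => rw [add_mul, map_add, h, h', map_add]; ring
  | hmon j a z =>
    induction W using q2_ind with
    | hadd W W' h h' => rw [mul_add, map_add, h, h', map_add]; ring
    | hmon j' a' z' =>
      rw [mono_mul, DD_mono, DD_mono, DD_mono, mono_mul, mono_mul, ← map_add, ← map_add,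
        Derivation.leibniz, wgt_add, smul_eq_mul, smul_eq_mul]
      congr 2
      push_cast
      ring

lemma DD_comm (E : Derivation k F F) (p q p' q' : ℤ) (V : Q2 F) :
    DD E p q (DD (0 : Derivation k F F) p' q' V) = DD (0 : Derivation k F F) p' q' (DD E p q V) := by
  refine q2_ext fun j a => ?_
  rw [DD_coeff, DD_coeff, DD_coeff, DD_coeff]
  have h0 : ∀ z : F, (0 : Derivation k F F) z = 0 := fun z => rfl
  have h1 : E ((wgt p' q' j a : F)) = 0 := by
    have : ((wgt p' q' j a : ℤ) : F) = algebraMap k F ((wgt p' q' j a : ℤ) : k) := by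
      rw [map_intCast]
    rw [this, Derivation.map_algebraMap]
  simp only [h0, zero_add, Derivation.leibniz, h1, smul_eq_mul, mul_zero, add_zero]
  ring

end Op

section Peel

variable {k M : Type} [Field k] [AddCommGroup M] [Module k M]

/-- an eigenvector in the cyclic submodule -/
lemma peel (T : M →ₗ[k] M) (good : M → Prop)
    (hstep : ∀ (c : M) (t : ℤ), good c → good (T c - (t : k) • c)) (s : Finset ℤ) :
    ∀ c : M, c ≠ 0 → good c →
    Polynomial.aeval T (∏ t ∈ s, (Polynomial.X - Polynomial.C ((t : ℤ) : k))) c = 0 →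
    ∃ (c' : M) (t : ℤ), c' ≠ 0 ∧ good c' ∧ T c' = (t : k) • c' := by
  classical
  induction s using Finset.induction_on with
  | empty =>
    intro c hc _ h
    rw [Finset.prod_empty, map_one, Module.End.one_apply] at h
    exact absurd h hc
  | insert t s ht ih =>
    intro c hc hg h
    rw [Finset.prod_insert ht, mul_comm, map_mul, Module.End.mul_apply, map_sub,
      Polynomial.aeval_X, Polynomial.aeval_C, LinearMap.sub_apply,
      Module.algebraMap_end_apply] at h
    by_cases h0 : T c - (t : k) • c = 0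
    · exact ⟨c, t, hc, hg, sub_eq_zero.1 h0⟩
    · exact ih _ h0 (hstep c t hg) h

/-- the annihilator -/
lemma ann (T : M →ₗ[k] M) {c : M}
    (h : c ∈ ⨆ t : ℤ, LinearMap.ker (T - algebraMap k (Module.End k M) ((t : ℤ) : k))) :
    ∃ s : Finset ℤ, Polynomial.aeval T (∏ t ∈ s, (Polynomial.X - Polynomial.C ((t : ℤ) : k))) c
      = 0 := by
  classical
  induction h using Submodule.iSup_induction' with
  | mem t x hx =>
    refine ⟨{t}, ?_⟩
    rw [Finset.prod_singleton, map_sub, Polynomial.aeval_X, Polynomial.aeval_C]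
    exact hx
  | zero => exact ⟨∅, map_zero _⟩
  | add x y _ _ hx hy =>
    obtain ⟨s, hs⟩ := hx
    obtain ⟨s', hs'⟩ := hy
    refine ⟨s ∪ s', ?_⟩
    have key : ∀ (s s' : Finset ℤ) (x : M), s ⊆ s' →
        Polynomial.aeval T (∏ t ∈ s, (Polynomial.X - Polynomial.C ((t : ℤ) : k))) x = 0 →
        Polynomial.aeval T (∏ t ∈ s', (Polynomial.X - Polynomial.C ((t : ℤ) : k))) x = 0 := by
      intro s s' x h hx
      rw [← Finset.prod_sdiff h, map_mul, Module.End.mul_apply, hx, map_zero]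
    rw [map_add, key s _ x Finset.subset_union_left hs, key s' _ y Finset.subset_union_right hs',
      add_zero]

end Peel

section Fin

variable {k F : Type} [Field k] [Field F] [Algebra k F]

/-- eigenvectors of `E` -/
def HmS (E : Derivation k F F) (t : ℤ) : Submodule k F where
  carrier := {z | Hm k E t z}
  add_mem' := by
    intro a b ha hb
    change Hm k E t (a + b)
    have h1 : Hm k E t a := ha
    have h2 : Hm k E t b := hb
    unfold Hm at *
    rw [map_add, h1, h2, mul_add]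
  zero_mem' := hm_zero E t
  smul_mem' := by
    intro c a ha
    change Hm k E t (c • a)
    have h1 : Hm k E t a := ha
    unfold Hm at *
    rw [Derivation.map_smul, h1, mul_smul_comm]

lemma mono_smul (c : k) (j : ℕ) (a : Fin 2 →₀ ℕ) (z : F) :
    (c • (Polynomial.monomial j (monomial a z)) : Q2 F) =
      Polynomial.monomial j (monomial a (algebraMap k F c * z)) := by
  rw [Polynomial.smul_monomial, smul_monomial, Algebra.smul_def]

lemma sup_mono (E : Derivation k F F) (p q : ℤ) (j : ℕ) (a : Fin 2 →₀ ℕ) {z : F}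
    (hz : z ∈ ⨆ t : ℤ, HmS E t) :
    (Polynomial.monomial j (monomial a z) : Q2 F) ∈ ⨆ t : ℤ,
      LinearMap.ker (DD E p q - algebraMap k (Module.End k (Q2 F)) ((t : ℤ) : k)) := by
  induction hz using Submodule.iSup_induction' with
  | mem t x hx =>
    refine Submodule.mem_iSup_of_mem (t + wgt p q j a) ?_
    rw [LinearMap.mem_ker, LinearMap.sub_apply, Module.algebraMap_end_apply, DD_mono, mono_smul,
      sub_eq_zero]
    have h1 : E x = (t : F) * x := hx
    rw [h1, map_intCast]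
    congr 2
    push_cast
    ring
  | zero =>
    rw [map_zero, map_zero]
    exact Submodule.zero_mem _
  | add x y _ _ hx hy =>
    rw [map_add, map_add]
    exact Submodule.add_mem _ hx hy

lemma sup_all (E : Derivation k F F) (p q : ℤ) (c : Q2 F)
    (hc : ∀ (j : ℕ) (a : Fin 2 →₀ ℕ), (c.coeff j).coeff a ∈ ⨆ t : ℤ, HmS E t) :
    c ∈ ⨆ t : ℤ,
      LinearMap.ker (DD E p q - algebraMap k (Module.End k (Q2 F)) ((t : ℤ) : k)) := by
  have h1 : c = ∑ i ∈ c.support, ∑ b ∈ (c.coeff i).support,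
      Polynomial.monomial i (monomial b ((c.coeff i).coeff b)) := by
    conv_lhs => rw [c.as_sum_support]
    refine Finset.sum_congr rfl fun i _ => ?_
    conv_lhs => rw [(c.coeff i).as_sum]
    rw [map_sum]
  rw [h1]
  exact Submodule.sum_mem _ fun i _ => Submodule.sum_mem _ fun b _ => sup_mono E p q i b (hc i b)

lemma deg2 {L : Type} [CommRing L] {r : MvPolynomial (Fin 2) L} {n : ℕ} (hr : r.IsHomogeneous n)
    {a : Fin 2 →₀ ℕ} (ha : r.coeff a ≠ 0) : a 0 + a 1 = n := by
  have h := hr ha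
  rw [Finsupp.weight_apply, Finsupp.sum_fintype _ _ (fun _ => by simp)] at h
  simpa [Fin.sum_univ_two] using h

lemma wh_coeff {L : Type} [CommRing L] {n : ℕ} {V : Q2 L} (hV : WH n V) {j : ℕ} {a : Fin 2 →₀ ℕ}
    (h : (V.coeff j).coeff a ≠ 0) : 3 * j + (a 0 + a 1) = n := by
  by_cases hj : 3 * j ≤ n
  · have := deg2 ((hV j).1 hj) h
    omega
  · rw [(hV j).2 (by omega), coeff_zero] at h
    exact absurd rfl h

lemma smulZ_coeff (t : ℤ) (V : Q2 F) (j : ℕ) (a : Fin 2 →₀ ℕ) :
    ((((t : ℤ) : k) • V).coeff j).coeff a = (t : F) * (V.coeff j).coeff a := by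
  rw [Polynomial.coeff_smul, coeff_smul, Algebra.smul_def, map_intCast]

lemma eig1 {n : ℕ} {V : Q2 F} (hV : WH n V) :
    DD (0 : Derivation k F F) 3 1 V = (((n : ℤ) : ℤ) : k) • V := by
  refine q2_ext fun j a => ?_
  rw [DD_coeff, smulZ_coeff]
  have h0 : ∀ z : F, (0 : Derivation k F F) z = 0 := fun z => rfl
  rw [h0, zero_add]
  by_cases h : (V.coeff j).coeff a = 0
  · rw [h, mul_zero, mul_zero]
  · have h1 := wh_coeff hV h
    have h2 : wgt 3 1 j a = (n : ℤ) := by
      unfold wgt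
      rw [← h1]
      push_cast
      ring
    rw [h2]

lemma eig2 {u : Fin 3 → F} {dd : Fin 3 → Derivation k F F} {n : ℕ} {τ : ℤ} {V : Q2 F}
    (hV : Tw u dd n τ V) : DD (eu u dd) 3 2 V = ((τ : ℤ) : k) • V := by
  refine q2_ext fun j a => ?_
  rw [DD_coeff, smulZ_coeff]
  by_cases h : (V.coeff j).coeff a = 0
  · rw [h, map_zero, mul_zero, mul_zero, add_zero]
  · have h1 := wh_coeff hV.1 h
    have h2 : eu u dd ((V.coeff j).coeff a) = ((τ - 2 * n + 3 * j : ℤ) : F) *
      (V.coeff j).coeff a := hV.2 j a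
    rw [h2, ← add_mul]
    congr 1
    unfold wgt
    rw [← h1]
    push_cast
    ring

/-- combinations of `P` and `N` with integral coefficients, without `w` -/
def gd (u : Fin 3 → F) (P N : Q2 F) (c : Q2 F) : Prop :=
  ∃ α β : Q2 F, (∀ j a, Itg k u ((α.coeff j).coeff a)) ∧ (∀ j a, Itg k u ((β.coeff j).coeff a)) ∧
    (∀ j a, Itg k u ((c.coeff j).coeff a)) ∧ α * P + β * N = c ∧
    ∀ j a, j ≠ 0 → (c.coeff j).coeff a = 0

lemma itg_int (u : Fin 3 → F) (t : ℤ) : Itg k u (t : F) := by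
  have h := (Bb k u).algebraMap_mem (t : k)
  rwa [map_intCast] at h

lemma itg_op {u : Fin 3 → F} {E : Derivation k F F} (hE : ∀ a, Itg k u a → Itg k u (E a))
    (p q t : ℤ) {V : Q2 F} (hV : ∀ j a, Itg k u ((V.coeff j).coeff a)) (j : ℕ)
    (a : Fin 2 →₀ ℕ) : Itg k u (((DD E p q V + ((t : ℤ) : k) • V).coeff j).coeff a) := by
  rw [Polynomial.coeff_add, coeff_add, DD_coeff, smulZ_coeff]
  exact (Bb k u).add_mem ((Bb k u).add_mem (hE _ (hV j a))
    ((Bb k u).mul_mem (itg_int u _) (hV j a))) ((Bb k u).mul_mem (itg_int u _) (hV j a))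

lemma gd_step {u : Fin 3 → F} {E : Derivation k F F} (hE : ∀ a, Itg k u a → Itg k u (E a))
    (p q lP lN : ℤ) {P N : Q2 F} (hP : DD E p q P = ((lP : ℤ) : k) • P)
    (hN : DD E p q N = ((lN : ℤ) : k) • N) (c : Q2 F) (t : ℤ) (h : gd (k := k) u P N c) :
    gd (k := k) u P N (DD E p q c - ((t : ℤ) : k) • c) := by
  obtain ⟨α, β, hα, hβ, hc, he, h0⟩ := h
  have hsub : ∀ c : Q2 F, DD E p q c - ((t : ℤ) : k) • c =
      DD E p q c + (((-t : ℤ) : ℤ) : k) • c := by
    intro c
    push_cast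
    rw [neg_smul, sub_eq_add_neg]
  refine ⟨DD E p q α + (((lP - t : ℤ) : ℤ) : k) • α, DD E p q β + (((lN - t : ℤ) : ℤ) : k) • β,
    itg_op hE p q _ hα, itg_op hE p q _ hβ, ?_, ?_, ?_⟩
  · rw [hsub]
    exact itg_op hE p q _ hc
  · rw [← he, map_add, DD_mul, DD_mul, hP, hN]
    push_cast
    simp only [sub_smul, add_mul, smul_add, mul_smul_comm, smul_mul_assoc, sub_mul]
    abel
  · intro j a hj
    rw [hsub, Polynomial.coeff_add, coeff_add, DD_coeff, smulZ_coeff, h0 j a hj, map_zero,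
      mul_zero, mul_zero, add_zero, add_zero]

lemma cq_mul_coeff (e : F) (V : Q2 F) (j : ℕ) (a : Fin 2 →₀ ℕ) :
    ((cq e * V : Q2 F).coeff j).coeff a = e * (V.coeff j).coeff a := by
  unfold cq
  rw [RingHom.comp_apply, Polynomial.coeff_C_mul, coeff_C_mul]

lemma den {u : Fin 3 → F} (hq : ∀ a : F, ∃ b c : F, Itg k u b ∧ Itg k u c ∧ c ≠ 0 ∧ a = b / c)
    (V : Q2 F) : ∃ e : F, e ≠ 0 ∧ Itg k u e ∧ ∀ j a, Itg k u (e * (V.coeff j).coeff a) := by
  classical
  choose nn dn hn hd hne heq using hq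
  set S : Finset (ℕ × (Fin 2 →₀ ℕ)) := V.support.biUnion fun j =>
    (V.coeff j).support.image fun a => (j, a) with hSd
  set g : ℕ × (Fin 2 →₀ ℕ) → F := fun p => dn ((V.coeff p.1).coeff p.2) with hg
  refine ⟨∏ p ∈ S, g p, Finset.prod_ne_zero_iff.2 fun p _ => hne _,
    (Bb k u).prod_mem fun p _ => hd _, fun j a => ?_⟩
  by_cases hc : (V.coeff j).coeff a = 0
  · rw [hc, mul_zero]
    exact itg_zero u
  · have hmem : (j, a) ∈ S := by
      rw [hSd, Finset.mem_biUnion]
      refine ⟨j, ?_, Finset.mem_image.2 ⟨a, mem_support_iff.2 hc, rfl⟩⟩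
      rw [Polynomial.mem_support_iff]
      intro h0
      rw [h0, coeff_zero] at hc
      exact hc rfl
    rw [← Finset.mul_prod_erase S _ hmem, mul_right_comm, mul_comm]
    refine (Bb k u).mul_mem ((Bb k u).prod_mem fun p _ => hd _) ?_
    have h1 : g (j, a) * (V.coeff j).coeff a = nn ((V.coeff j).coeff a) := by
      have h2 : dn ((V.coeff j).coeff a) * (nn ((V.coeff j).coeff a) /
          dn ((V.coeff j).coeff a)) = nn ((V.coeff j).coeff a) := mul_div_cancel₀ _ (hne _)
      rw [← heq ((V.coeff j).coeff a)] at h2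
      exact h2
    rw [h1]
    exact hn _

end Fin

theorem pf_RST (hSF1 : T_SF1) (hVLQ : T_VLQ) : T_RST := by
  classical
  intro k F _ _ _ _ _ u dd δ j0 c0 J hS w n τ τ' P N hP hPd hPt hNt hPN
  obtain ⟨-, -, -, -, hEi, -, hq⟩ := hSF1 k F u dd δ j0 c0 J hS
  have hF0 : CharZero F := charZero_of_injective_algebraMap (algebraMap k F).injective
  obtain ⟨r, U, V, hr, hUV⟩ := Pool.Agent.H51.SM.elim_poly P N hP hPN
  obtain ⟨e1, he1, hi1, hU⟩ := den (k := k) hq U
  obtain ⟨e2, he2, hi2, hV⟩ := den (k := k) hq V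
  obtain ⟨e3, he3, hi3, hC⟩ := den (k := k) hq (Polynomial.C r)
  set e : F := e1 * e2 * e3 with he
  have hene : e ≠ 0 := mul_ne_zero (mul_ne_zero he1 he2) he3
  have hcne : (cq e * Polynomial.C r : Q2 F) ≠ 0 :=
    mul_ne_zero (cq_ne hene) (fun h => hr (Polynomial.C_eq_zero.1 h))
  have hgd : gd (k := k) u P N (cq e * Polynomial.C r) := by
    refine ⟨cq e * U, cq e * V, fun j a => ?_, fun j a => ?_, fun j a => ?_, ?_, fun j a hj => ?_⟩
    · rw [cq_mul_coeff, show e * (U.coeff j).coeff a = (e2 * e3) * (e1 * (U.coeff j).coeff a) by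
        rw [he]; ring]
      exact (Bb k u).mul_mem ((Bb k u).mul_mem hi2 hi3) (hU j a)
    · rw [cq_mul_coeff, show e * (V.coeff j).coeff a = (e1 * e3) * (e2 * (V.coeff j).coeff a) by
        rw [he]; ring]
      exact (Bb k u).mul_mem ((Bb k u).mul_mem hi1 hi3) (hV j a)
    · rw [cq_mul_coeff, show e * ((Polynomial.C r : Q2 F).coeff j).coeff a =
        (e1 * e2) * (e3 * ((Polynomial.C r : Q2 F).coeff j).coeff a) by rw [he]; ring]
      exact (Bb k u).mul_mem ((Bb k u).mul_mem hi1 hi2) (hC j a)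
    · rw [← hUV]
      ring
    · rw [cq_mul_coeff, Polynomial.coeff_C, if_neg hj, coeff_zero, mul_zero]
  -- weights
  have hz0 : ∀ a, Itg k u a → Itg k u ((0 : Derivation k F F) a) := fun a _ => itg_zero u
  have hsup0 : ∀ z : F, z ∈ ⨆ t : ℤ, HmS (0 : Derivation k F F) t := by
    intro z
    refine Submodule.mem_iSup_of_mem 0 ?_
    change Hm k (0 : Derivation k F F) 0 z
    unfold Hm
    rw [Int.cast_zero, zero_mul]
    rfl
  obtain ⟨s1, hs1⟩ := ann (DD (0 : Derivation k F F) 3 1)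
    (sup_all (0 : Derivation k F F) 3 1 (cq e * Polynomial.C r) fun j a => hsup0 _)
  obtain ⟨c1, t1, hc1, hg1, hT1⟩ := peel (DD (0 : Derivation k F F) 3 1)
    (gd (k := k) u P N) (gd_step hz0 3 1 w n (eig1 hPt.1) (eig1 hNt.1)) s1 _ hcne hgd hs1
  -- twists
  have hsup : ∀ z : F, Itg k u z → z ∈ ⨆ t : ℤ, HmS (eu u dd) t := by
    intro z hz
    refine (iSup_mono fun t => ?_ : (⨆ t : ℤ, BB k u (eu u dd) t) ≤ ⨆ t : ℤ, HmS (eu u dd) t)
      (hS.grd z hz)
    intro b hb
    exact hb.2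
  obtain ⟨s2, hs2⟩ := ann (DD (eu u dd) 3 2)
    (sup_all (eu u dd) 3 2 c1 fun j a => hsup _ (by
      obtain ⟨α, β, -, -, hc, -, -⟩ := hg1
      exact hc j a))
  obtain ⟨c2, t2, hc2, ⟨hg2, hT1'⟩, hT2⟩ := peel (DD (eu u dd) 3 2)
    (fun c => gd (k := k) u P N c ∧ DD (0 : Derivation k F F) 3 1 c = ((t1 : ℤ) : k) • c)
    (fun c t h => ⟨gd_step hEi 3 2 τ τ' (eig2 hPt) (eig2 hNt) c t h.1, by
      rw [map_sub, map_smul, ← DD_comm, h.2, map_smul, smul_sub, smul_comm]⟩)
    s2 _ hc1 ⟨hg1, hT1⟩ hs2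
  obtain ⟨α, β, hα, hβ, hc, hcomb, hcj⟩ := hg2
  -- the weight is a natural number
  have hw : ∀ j a, (c2.coeff j).coeff a ≠ 0 → j = 0 ∧ ((a 0 + a 1 : ℕ) : ℤ) = t1 := by
    intro j a hne
    have hj : j = 0 := by
      by_contra hj
      exact hne (hcj j a hj)
    refine ⟨hj, ?_⟩
    have h1 := congrArg (fun V : Q2 F => (V.coeff j).coeff a) hT1'
    rw [DD_coeff, smulZ_coeff] at h1
    have h0 : (0 : Derivation k F F) ((c2.coeff j).coeff a) = 0 := rfl
    rw [h0, zero_add] at h1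
    have h2 := mul_right_cancel₀ hne h1
    have h3 : wgt 3 1 j a = t1 := by exact_mod_cast h2
    rw [← h3, hj]
    unfold wgt
    push_cast
    ring
  obtain ⟨j1, a1, hne1⟩ : ∃ j a, (c2.coeff j).coeff a ≠ 0 := by
    by_contra hcon
    push Not at hcon
    refine hc2 (q2_ext fun j a => ?_)
    rw [hcon, Polynomial.coeff_zero, coeff_zero]
  set n' : ℕ := a1 0 + a1 1 with hn'
  have ht1 : (n' : ℤ) = t1 := (hw j1 a1 hne1).2
  have hw' : ∀ j a, (c2.coeff j).coeff a ≠ 0 → j = 0 ∧ a 0 + a 1 = n' := by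
    intro j a hne
    obtain ⟨h1, h2⟩ := hw j a hne
    exact ⟨h1, by rw [← ht1] at h2; exact_mod_cast h2⟩
  refine ⟨c2, ⟨hc2, ?_, hc, n', t2, ⟨fun j => ⟨fun h => ?_, fun h => ?_⟩, fun j a => ?_⟩⟩, ?_⟩
  · refine Nat.le_zero.1 (Polynomial.natDegree_le_iff_coeff_eq_zero.2 fun i hi => ?_)
    refine MvPolynomial.ext _ _ fun a => ?_
    rw [hcj i a (by omega), coeff_zero]
  · intro a ha
    obtain ⟨h1, h2⟩ := hw' j a ha
    rw [Finsupp.weight_apply, Finsupp.sum_fintype _ _ (fun _ => by simp)]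
    simp only [Fin.sum_univ_two, Pi.one_apply, smul_eq_mul, mul_one]
    omega
  · refine MvPolynomial.ext _ _ fun a => ?_
    rw [hcj j a (by omega), coeff_zero]
  · by_cases hz : (c2.coeff j).coeff a = 0
    · rw [hz]
      exact hm_zero _ _
    · obtain ⟨h1, h2⟩ := hw' j a hz
      have h3 := congrArg (fun V : Q2 F => (V.coeff j).coeff a) hT2
      rw [DD_coeff, smulZ_coeff] at h3
      have h4 : eu u dd ((c2.coeff j).coeff a) =
          ((t2 : F) - (wgt 3 2 j a : F)) * (c2.coeff j).coeff a := by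
        rw [sub_mul, ← h3]
        ring
      unfold Hm
      rw [h4]
      congr 1
      unfold wgt
      rw [h1, ← h2]
      push_cast
      ring
  · intro K _ _ φ D x PK NK cK hPK hNK hcK hP0 hN0
    obtain ⟨huniq, hadd, -, -, -, -, hex⟩ := hVLQ k F K u φ
    obtain ⟨αK, hαK⟩ := hex α fun j a => ⟨φ ⟨_, hα j a⟩, vl_self u φ ⟨_, hα j a⟩⟩
    obtain ⟨βK, hβK⟩ := hex β fun j a => ⟨φ ⟨_, hβ j a⟩, vl_self u φ ⟨_, hβ j a⟩⟩
    have h1 := (hadd _ _ _ _ hαK hPK).2
    have h2 := (hadd _ _ _ _ hβK hNK).2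
    have h3 := (hadd _ _ _ _ h1 h2).1
    rw [hcomb] at h3
    rw [huniq _ _ _ hcK h3, map_add, map_mul, map_mul, hP0, hN0, mul_zero, mul_zero, add_zero]

end Pool.Agent.H68.SF
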