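import Pool.Agent.H68.SF.LT2
import Pool.Agent.H45.SF.Defs

/-! Part L (constructibility): exact targets, third list: fullness. -/

open Ordinal Cardinal Order Set
open scoped ZFSet

namespace SF

/-- the set of the values of a function `f` with values in `N`, as in the definition of `Full` -/
noncomputable def rnF (N x f : V) : V := N.sep fun y => ∃ u ∈ x, ZFSet.pair u y ∈ f

/-- `N` is regular in the class `M` -/
def RegIn (N : V) (M : V → Prop) : Prop := ∀ x ∈ N, ∀ f, M f → ZFSet.IsFunc x N f → rnF N x f ∈ N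

/-- consequences of regularity: subsets of elements, functions -/
def T_LRI : Prop := ∀ (N : V) (M : V → Prop), ZFm M → ZFm (· ∈ N) → M N → RegIn N M →
  (∀ x ∈ N, ∀ R, M R → R ⊆ x → R ∈ N) ∧ (∀ x ∈ N, ∀ f, M f → ZFSet.IsFunc x N f → f ∈ N)

/-- the bounded subsets of `L_κ[A]` in `L_γ(L_κ[A])` are elements -/
def T_LBS : Prop := ∀ (κ : Cardinal.{0}), κ.IsRegular → ℵ₀ < κ → ∀ A, A ∈ LA A κ.ord →
  ∀ R ∈ LN (LA A κ.ord) (succ (LA A κ.ord).card).ord, ∀ x ∈ LA A κ.ord, R ⊆ x → R ∈ LA A κ.ord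

/-- `L_κ[A]` is full (except for countability), `A ∈ L_κ[A]`, `κ` regular -/
def T_LFN : Prop := ∀ (κ : Cardinal.{0}), κ.IsRegular → ℵ₀ < κ → ∀ A, A ∈ LA A κ.ord →
  ZFCm (· ∈ LA A κ.ord) ∧ ZFCm (· ∈ LN (LA A κ.ord) (succ (LA A κ.ord).card).ord) ∧
    RegIn (LA A κ.ord) (· ∈ LN (LA A κ.ord) (succ (LA A κ.ord).card).ord)

/-- every set is an element of some `L_κ[A]` -/
def T_LEX : Prop := ∀ p : V, ∃ (κ : Cardinal.{0}) (A : V), κ.IsRegular ∧ ℵ₀ < κ ∧
  A ∈ LA A κ.ord ∧ p ∈ LA A κ.ord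

/-- existence of nice pairs with an elementary map, over a given set -/
def T_LNP : Prop := ∀ p : V, ∃ N' N f, NP N' N ∧ IsElem N' N f ∧ ∃ p' ∈ N', app f p' = p

/-- fullness of generic extensions of full models -/
def T_LFU : Prop := ∀ (W : V → Prop) (N' A' c r G : V) (τ : Ordinal.{0}), Full W N' →
  ZFCm (· ∈ N') → A' ∈ N' → N' = LA A' τ → c ∈ N' → r ∈ N' → IsPo c r → Gen (· ∈ N') c r G →
  Full W (extS N' G)

/-- generic extensions of `L_τ[A]` are of the form `L_τ[B]` -/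
def T_LNG : Prop := ∀ (N A c r G : V) (τ : Ordinal.{0}), ZFCm (· ∈ N) → A ∈ N → N = LA A τ →
  c ∈ N → r ∈ N → IsPo c r → Gen (· ∈ N) c r G →
  ∃ B ∈ extS N G, IsCode B ∧ extS N G = LA B τ

/-- the predicate of a nice pair in the small model -/
def T_LPR : Prop := ∀ (N' N f A : V) (τ : Ordinal.{0}), IsElem N' N f → N'.Nonempty → N'.IsTransitive →
  ZFCm (· ∈ N) → A ∈ N → N = LA A τ →
  (∃ (A' : V) (τ' : Ordinal.{0}), A' ∈ N' ∧ N' = LA A' τ' ∧ N = LA (app f A') τ) ∧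
    ZFCm (· ∈ N')

end SF
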