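import Pool.Agent.H77.SF.KT

open Ordinal Cardinal Order Set
open scoped ZFSet

namespace SF.H68

open SF

/-- the subset of `N` which corresponds to a subset of the index type -/
noncomputable def kcS (N : V) [hs : Small.{0} (N : Set V)] (X : Set (Shrink.{0} (N : Set V))) : V :=
  N.sep fun x => ∃ h : x ∈ (N : Set V), equivShrink (N : Set V) ⟨x, h⟩ ∈ X

theorem kc_mem {N : V} [hs : Small.{0} (N : Set V)] {X : Set (Shrink.{0} (N : Set V))} {x : V}
    (h : x ∈ (N : Set V)) : x ∈ kcS N X ↔ equivShrink (N : Set V) ⟨x, h⟩ ∈ X := by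
  unfold kcS
  rw [ZFSet.mem_sep]
  exact ⟨fun h1 => h1.2.2, fun h1 => ⟨h, h, h1⟩⟩

theorem kc_sub {N : V} [hs : Small.{0} (N : Set V)] {X : Set (Shrink.{0} (N : Set V))} :
    kcS N X ⊆ N := fun _ h => (ZFSet.mem_sep.1 h).1

theorem kc_card {N : V} [hs : Small.{0} (N : Set V)] {X : Set (Shrink.{0} (N : Set V))}
    {κ : Cardinal.{0}} (hX : #X < κ) : (kcS N X).card < κ := by
  refine lt_of_le_of_lt ?_ hX
  unfold ZFSet.card
  refine Cardinal.mk_le_of_injective (f := fun z => ⟨equivShrink (N : Set V)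
    ⟨((equivShrink _).symm z).1, kc_sub ((equivShrink _).symm z).2⟩,
    (kc_mem (kc_sub ((equivShrink _).symm z).2)).1 ((equivShrink _).symm z).2⟩) ?_
  intro z w h
  have h1 := congrArg Subtype.val h
  have h2 := (equivShrink (N : Set V)).injective h1
  have h3 := congrArg Subtype.val h2
  exact (equivShrink _).symm.injective (Subtype.ext h3)

theorem kc : T_KC := by
  intro κ hκ N
  have hs : Small.{0} (N : Set V) := ZFSet.small_coe N
  obtain ⟨U, hU1, hU2, hU3, hU4⟩ := hκ.2 (Shrink.{0} (N : Set V))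
  refine ⟨U.map (kcS N), ?_⟩
  have key : ∀ P : V → Prop, (∀ᶠ Y in ((U.map (kcS N) : Ultrafilter V) : Filter V), P Y) ↔
      {X | P (kcS N X)} ∈ U := fun P => by
    rw [Ultrafilter.coe_map, Filter.eventually_map]
    rfl
  constructor
  · rw [key]
    exact Filter.mem_of_superset Filter.univ_mem fun X _ => kc_sub
  · rw [key]
    exact Filter.mem_of_superset hU1 fun X hX => kc_card hX
  · intro x hx
    rw [key]
    refine Filter.mem_of_superset (hU2 (equivShrink (N : Set V) ⟨x, hx⟩)) fun X hX => ?_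
    exact (kc_mem (N := N) (x := x) hx).2 hX
  · intro I P hI hP
    rw [key]
    have h1 := hU3 I (fun i => {X | P i (kcS N X)}) hI fun i => (key (P i)).1 (hP i)
    refine Filter.mem_of_superset h1 fun X hX i => ?_
    exact Set.mem_iInter.1 hX i
  · intro f hf
    rw [key] at hf
    have hne : ∃ X, f (kcS N X) ∈ kcS N X := by
      obtain ⟨X, hX⟩ := Ultrafilter.nonempty_of_mem hf
      exact ⟨X, hX⟩
    obtain ⟨X0, hX0⟩ := hne
    classical
    let g : Set (Shrink.{0} (N : Set V)) → Shrink.{0} (N : Set V) := fun X =>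
      if h : f (kcS N X) ∈ (N : Set V) then equivShrink (N : Set V) ⟨_, h⟩
      else equivShrink (N : Set V) ⟨_, kc_sub hX0⟩
    have hg : {X | g X ∈ X} ∈ U := by
      refine Filter.mem_of_superset hf fun X hX => ?_
      have h1 : f (kcS N X) ∈ (N : Set V) := kc_sub hX
      show g X ∈ X
      simp only [g]
      rw [dif_pos h1]
      exact (kc_mem h1).1 hX
    obtain ⟨t, ht⟩ := hU4 g hg
    refine ⟨((equivShrink (N : Set V)).symm t).1, ((equivShrink (N : Set V)).symm t).2, ?_⟩
    rw [key]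
    refine Filter.mem_of_superset (Filter.inter_mem hf ht) fun X hX => ?_
    obtain ⟨hX1, hX2⟩ := hX
    have h1 : f (kcS N X) ∈ (N : Set V) := kc_sub hX1
    have h2 : g X = t := hX2
    simp only [g] at h2
    rw [dif_pos h1] at h2
    show f (kcS N X) = _
    rw [← h2, Equiv.symm_apply_apply]

end SF.H68
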