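import Pool.Agent.H68.SF.LT3
import Pool.Agent.H7.SF.ReflS

/-! `T_LIN`, `T_LRS`: inner models, restriction of elementary maps. -/

set_option linter.unusedVariables false

open Ordinal Cardinal Order Set
open scoped ZFSet

namespace SF

/-- the constructible closure -/
def CLL (M : V → Prop) (a A x : V) : Prop := ∃ α : Ordinal.{0}, M α.toZFSet ∧ x ∈ Lh a A α

/-- the class is definable -/
theorem dfb_CLL (hLHT : T_LHT) : Dfb ZFm (fun M w => CLL M (w 1) (w 2) (w 0)) := by
  have h1 : Dfb ZFm (fun M w => ∃ o, M o ∧ (IsOrd o ∧ w 0 ∈ Lh (w 1) (w 2) o.rank)) :=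
    (Dfb.ex (R := fun _ u => IsOrd (u 0) ∧ u 1 ∈ Lh (u 2) (u 3) (u 0).rank)
      ((Dfb.isOrd (Tm.var 0)).and (Dfb.mem (Tm.var 1)
        (Tm.at3 (F := fun _ x y z => Lh x y z.rank) hLHT (Tm.var 2) (Tm.var 3)
          (Tm.var 0))))).congr fun M k v hv => Iff.rfl
  refine h1.congr fun M k v hv => ?_
  constructor
  · rintro ⟨_, ho, ⟨α, rfl⟩, hx⟩
    rw [Ordinal.rank_toZFSet] at hx
    exact ⟨α, ho, hx⟩
  · rintro ⟨α, hα, hx⟩
    refine ⟨α.toZFSet, hα, ⟨α, rfl⟩, ?_⟩
    rw [Ordinal.rank_toZFSet]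
    exact hx

theorem mLh' (hLHT : T_LHT) {M : V → Prop} (k : ZFm M) {a A : V} (ha : M a) (hA : M A)
    {α : Ordinal.{0}} (hα : M α.toZFSet) : M (Lh a A α) := by
  have h1 := hLHT.1 M k (cons a (cons A fun _ => α.toZFSet)) (by
    intro i
    rcases i with _ | _ | i
    · exact ha
    · exact hA
    · exact hα)
  have h2 : M (Lh a A α.toZFSet.rank) := h1
  rwa [Ordinal.rank_toZFSet] at h2

/-- relativisation to the constructible closure -/
theorem lin_rel (hLHT : T_LHT) (φ : Fml) :
    Dfb ZFm (fun M w => Sat (CLL M (w 0) (w 1)) φ (fun i => w (i + 2))) := by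
  unfold Sat
  induction φ with
  | mem i j => exact Dfb.mem (Tm.var (i + 2)) (Tm.var (j + 2))
  | eq i j => exact Dfb.eq (Tm.var (i + 2)) (Tm.var (j + 2))
  | prd i => exact Dfb.fls
  | neg φ ih => exact ih.not
  | and φ ψ ih1 ih2 => exact ih1.and ih2
  | ex φ ih =>
    have h1 := (dfb_CLL hLHT).and (ih.rn (fun i => match i with
      | 0 => 1
      | 1 => 2
      | 2 => 0
      | i + 3 => i + 3))
    refine h1.ex.congr fun M k v hv => ?_
    have e : ∀ x, (fun i => (fun i => cons x v (match i with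
      | 0 => 1
      | 1 => 2
      | 2 => 0
      | i + 3 => i + 3)) (i + 2)) = cons x fun i => v (i + 2) := by
      intro x
      funext i
      cases i <;> rfl
    show (∃ x, M x ∧ (CLL M (v 0) (v 1) x ∧ SatP (CLL M (v 0) (v 1)) _ φ
      (fun i => (fun i => cons x v (match i with
      | 0 => 1
      | 1 => 2
      | 2 => 0
      | i + 3 => i + 3)) (i + 2)))) ↔ ∃ x, CLL M (v 0) (v 1) x ∧ SatP (CLL M (v 0) (v 1)) _ φ
        (cons x fun i => v (i + 2))
    constructor
    · rintro ⟨x, -, hx, hs⟩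
      rw [e] at hs
      exact ⟨x, hx, hs⟩
    · rintro ⟨x, hx, hs⟩
      rw [← e] at hs
      obtain ⟨α, hα, hxα⟩ := id hx
      exact ⟨x, k.trans _ (mLh' hLHT k (hv 0) (hv 1) hα) x hxα, hx, hs⟩

theorem pf_LIN (hLHT : T_LHT) : T_LIN := by
  intro M k a A ha hA hat
  have hlev : ∀ (n : ℕ) (v : ℕ → V), (∀ i, CLL M a A (v i)) →
      ∃ α : Ordinal.{0}, M α.toZFSet ∧ ∀ i < n, v i ∈ Lh a A α := by
    intro n v hv
    induction n with
    | zero => exact ⟨0, by rw [Ordinal.toZFSet_zero]; exact k.mempty, by simp⟩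
    | succ n ih =>
      obtain ⟨α, hα, h1⟩ := ih
      obtain ⟨β, hβ, h2⟩ := hv n
      refine ⟨max α β, ?_, fun i hi => ?_⟩
      · rcases le_total α β with h | h
        · rw [max_eq_right h]
          exact hβ
        · rw [max_eq_left h]
          exact hα
      · rcases Nat.lt_succ_iff_lt_or_eq.1 hi with h | rfl
        · exact Lh_mono (le_max_left _ _) (h1 i h)
        · exact Lh_mono (le_max_right _ _) h2
  have hCM : ∀ x, CLL M a A x → M x := fun x ⟨α, hα, hx⟩ =>
    k.trans _ (mLh' hLHT k ha hA hα) x hx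
  show ZFm (CLL M a A)
  constructor
  · rintro x ⟨α, hα, hx⟩ y hy
    exact ⟨α, hα, Lh_isTransitive hat α x hx hy⟩
  · intro x y hx hy
    obtain ⟨α, hα, h1⟩ := hlev 2 (fun i => if i = 0 then x else y) (fun i => by
      show CLL M a A (if i = 0 then x else y)
      split_ifs
      · exact hx
      · exact hy)
    exact ⟨α + 1, k.msucc hα, pair_mem_Lh hat (Order.lt_succ α) (h1 0 (by norm_num))
      (h1 1 (by norm_num))⟩
  · rintro x ⟨α, hα, hx⟩
    exact ⟨α + 1, k.msucc hα, union_mem_Lh hat (Order.lt_succ α) hx⟩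
  · exact ⟨ω + 1, k.msucc k.inf, ord_mem_Lh hat (Order.lt_succ ω)⟩
  · -- separation
    intro φ v b hv hb
    obtain ⟨v', hv'⟩ : ∃ v' : ℕ → V, v' = fun i => if i < φ.bd then v i else b := ⟨_, rfl⟩
    have hv'C : ∀ i, CLL M a A (v' i) := fun i => by
      rw [hv']
      show CLL M a A (if i < φ.bd then v i else b)
      split_ifs
      · exact hv i
      · exact hb
    obtain ⟨α, hα, h1⟩ := hlev (φ.bd + 1) v' hv'C
    have hbα : b ∈ Lh a A α := by
      have := h1 φ.bd (Nat.lt_succ_self _)
      rw [hv'] at this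
      simpa using this
    have h1' : ∀ i, v' i ∈ Lh a A α := fun i => by
      by_cases hi : i < φ.bd
      · exact h1 i (by omega)
      · have : v' i = b := by
          rw [hv']
          exact if_neg hi
        rw [this]
        exact hbα
    obtain ⟨β, hαβ, hβ, -, href⟩ := reflect (f := fun _ v => Lh (v 1) (v 2) (v 0).rank)
      (Tm.at3 (F := fun _ x y z => Lh x y z.rank) hLHT (Tm.var 1) (Tm.var 2) (Tm.var 0))
      k (p := cons a fun _ => A) (In.cons (fun _ => hA) ha) (H := Lh a A)
      (fun α _ => by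
        show Lh a A α.toZFSet.rank = _
        rw [Ordinal.rank_toZFSet])
      (fun α β h _ => Lh_mono h)
      (fun β _ hl x hx => (mem_Lh_limit hl).1 hx) [φ] α hα
    have href' : ∀ w : ℕ → V, (∀ i, w i ∈ Lh a A β) →
        (Sat (CLL M a A) φ w ↔ Sat (· ∈ Lh a A β) φ w) := href φ (by simp)
    have hbβ : b ∈ Lh a A β := Lh_mono hαβ.le hbα
    have hvβ : ∀ i, v' i ∈ Lh a A β := fun i => Lh_mono hαβ.le (h1' i)
    refine ⟨β + 1, k.msucc hβ, ?_⟩
    have hd := def_mem (x := Lh a A β) (A := A)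
      (.and (.mem 0 1) (φ.np.rn (fun i => match i with
        | 0 => 0
        | i + 1 => i + 2))) (cons b v') (fun i => by
        cases i with
        | zero => exact hbβ
        | succ i => exact hvβ i)
    have e : ((Lh a A β).sep fun z => SatP (· ∈ Lh a A β) (· ∈ A)
        (.and (.mem 0 1) (φ.np.rn (fun i => match i with
        | 0 => 0
        | i + 1 => i + 2))) (cons z (cons b v'))) =
        b.sep fun z => Sat (CLL M a A) φ (cons z v) := by
      ext z
      rw [ZFSet.mem_sep, ZFSet.mem_sep]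
      have e2 : (fun i => cons z (cons b v') (match i with
          | 0 => 0
          | i + 1 => i + 2)) = cons z v' := by
        funext i
        cases i <;> rfl
      have e3 : ∀ z, Sat (CLL M a A) φ (cons z v) ↔ Sat (CLL M a A) φ (cons z v') := by
        intro z
        refine satP_congr _ _ _ _ _ fun i hi => ?_
        cases i with
        | zero => rfl
        | succ i =>
          show v i = v' i
          rw [hv']
          exact (if_pos (by omega)).symm
      constructor
      · rintro ⟨hz, hzb, hs⟩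
        rw [satP_rn, e2, satP_np] at hs
        refine ⟨hzb, (e3 z).2 ((href' _ fun i => ?_).2 hs)⟩
        cases i with
        | zero => exact hz
        | succ i => exact hvβ i
      · rintro ⟨hzb, hs⟩
        have hz : z ∈ Lh a A β := Lh_isTransitive hat β b hbβ hzb
        refine ⟨hz, hzb, ?_⟩
        rw [satP_rn, e2, satP_np]
        refine (href' _ fun i => ?_).1 ((e3 z).1 hs)
        cases i with
        | zero => exact hz
        | succ i => exact hvβ i
    rw [e] at hd
    exact Def_Lh_sub (Order.lt_succ β) hd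
  · -- collection
    intro φ v b hv hb hex
    have hR : Dfb ZFm (fun M w => IsOrd (w 0) ∧ ∃ y ∈ Lh (w 2) (w 3) (w 0).rank,
        Sat (CLL M (w 2) (w 3)) φ (cons y (cons (w 1) fun i => w (i + 4)))) := by
      have h1 := (lin_rel hLHT φ).rn (fun i => match i with
        | 0 => 3
        | 1 => 4
        | 2 => 0
        | 3 => 2
        | i + 4 => i + 5)
      have h2 : Dfb ZFm (fun M u => Sat (CLL M (u 3) (u 4)) φ
          (cons (u 0) (cons (u 2) fun i => u (i + 5)))) := by
        refine h1.congr fun M k u hu => ?_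
        have e : (fun i => (fun i => u (match i with
          | 0 => 3
          | 1 => 4
          | 2 => 0
          | 3 => 2
          | i + 4 => i + 5)) (i + 2)) = cons (u 0) (cons (u 2) fun i => u (i + 5)) := by
          funext i
          rcases i with _ | _ | i <;> rfl
        show Sat (CLL M (u 3) (u 4)) φ (fun i => (fun i => u (match i with
          | 0 => 3
          | 1 => 4
          | 2 => 0
          | 3 => 2
          | i + 4 => i + 5)) (i + 2)) ↔ _
        rw [e]
      have h3 := Dfb.bex ktr_zfm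
        (Tm.at3 (F := fun _ x y z => Lh x y z.rank) hLHT (Tm.var 2) (Tm.var 3) (Tm.var 0)) h2
      exact ((Dfb.isOrd (Tm.var 0)).and h3).congr fun M k u hu => Iff.rfl
    obtain ⟨θ, hθ⟩ := hR
    have hvM : In M v := fun i => hCM _ (hv i)
    have hasg : In M (cons a (cons A v)) := (hvM.cons hA).cons ha
    obtain ⟨c, hc, hc2⟩ := k.coll θ (cons a (cons A v)) b hasg (hCM b hb) (by
      intro x hx
      obtain ⟨y, ⟨α, hα, hy⟩, hs⟩ := hex x hx
      refine ⟨α.toZFSet, hα, (hθ M k _ ((hasg.cons (k.trans _ (hCM b hb) x hx)).cons hα)).2 ?_⟩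
      refine ⟨⟨α, rfl⟩, y, ?_, hs⟩
      show y ∈ Lh a A α.toZFSet.rank
      rw [Ordinal.rank_toZFSet]
      exact hy)
    -- a bound of the ordinals in `c`
    have hrk : M (c.rank + 1 : Ordinal.{0}).toZFSet := by
      refine k.msucc ?_
      exact (Tm.rkS (Tm.var 0)).1 M k (fun _ => c) fun _ => hc
    refine ⟨Lh a A c.rank, ⟨c.rank + 1, hrk, Lh_mem (Order.lt_succ _)⟩, fun x hx => ?_⟩
    obtain ⟨o, ho, hs⟩ := hc2 x hx
    have hoM := k.trans _ hc o ho
    obtain ⟨⟨α, hα⟩, y, hy, hs2⟩ := (hθ M k _ ((hasg.cons (k.trans _ (hCM b hb) x hx)).cons hoM)).1 hs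
    have hα' : o = α.toZFSet := hα
    have hy' : y ∈ Lh a A o.rank := hy
    refine ⟨y, Lh_mono ?_ hy', hs2⟩
    exact (ZFSet.rank_lt_of_mem ho).le

end SF
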