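import Pool.Agent.H45.SF.UT

open Ordinal Cardinal Order Set
open scoped ZFSet

namespace Pool.Agent.H68.SF

open _root_.SF

theorem pf_PB (hMB : T_MB) (hMP : T_MP) (hG2 : T_G2) : T_PB := by
  intro A Z ι honto
  obtain ⟨hmono, -, -, -, -, -, -⟩ := hMB A.B Z.B ι.toMor
  obtain ⟨p1, p2, -, -, p5, p6, p7, -⟩ := hMP A.B Z.B ι.toMor
  set e : El A.B := ι.toMor.proj (ι ⊤) with he
  have hle : ∀ z : El Z.B, z ⊓ ι ⊤ ≤ ι ⊤ := fun z => inf_le_right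
  have hmt : ∀ y : El A.B, ι y ≤ ι ⊤ := fun y => hmono _ _ le_top
  have hie : ι e = ι ⊤ := le_antisymm (hmt e) (p2 _ le_rfl)
  have hye : ∀ y : El A.B, ι (y ⊓ e) = ι y := fun y => by
    have h1 : ι (y ⊓ e) = ι y ⊓ ι e := ι.inf y e
    rw [h1, hie]
    exact inf_eq_left.2 (hmt y)
  have hpi : ∀ y : El A.B, ι.toMor.proj (ι y) = y ⊓ e := p7
  -- the inverse on the elements below the top
  have hir : ∀ z : El Z.B, ι (ι.toMor.proj (z ⊓ ι ⊤)) = z ⊓ ι ⊤ := by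
    intro z
    obtain ⟨y, hy⟩ := honto _ (hle z)
    rw [← hy, hpi, hye]
  let ρm : Mor Z.B A.B :=
    { f := fun z => ι.toMor.proj (z ⊓ ι ⊤)
      inf := fun z z' => by
        obtain ⟨y, hy⟩ := honto _ (hle z)
        obtain ⟨y', hy'⟩ := honto _ (hle z')
        have h1 : z ⊓ z' ⊓ ι ⊤ = ι (y ⊓ y') := by
          have h2 : ι (y ⊓ y') = ι y ⊓ ι y' := ι.inf y y'
          rw [h2, hy, hy', inf_inf_distrib_right]
        rw [h1, ← hy, ← hy', hpi, hpi, hpi, inf_inf_distrib_right]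
      sup := fun S => by
        have h1 : sSup S ⊓ ι ⊤ = ⨆ s : S, s.1 ⊓ ι ⊤ := by
          rw [sSup_eq_iSup', iSup_inf_eq]
        rw [h1, p6 S (fun s => s.1 ⊓ ι ⊤) (fun s => hle _), sSup_image']}
  have hρ : ∀ z, ρm z = ι.toMor.proj (z ⊓ ι ⊤) := fun _ => rfl
  have hρt : ρm ⊤ = e := by
    rw [hρ, top_inf_eq]
  let ρ : BMor Z A :=
    { toMor := ρm
      base := fun x => by
        show ρm (Z.g x) = A.g x ⊓ ρm ⊤
        rw [hρt, hρ, ← ι.base x]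
        exact hpi _ }
  have hρ2 : ∀ z, ρ z = ι.toMor.proj (z ⊓ ι ⊤) := fun _ => rfl
  have hρt2 : ρ ⊤ = e := hρt
  have hri : ∀ x, ρ (ι x) = x ⊓ ρ ⊤ := fun x => by
    rw [hρt2, hρ2, inf_eq_left.2 (hmt x)]
    exact hpi x
  have hon2 : ∀ x ≤ ρ ⊤, ∃ z ≤ ι ⊤, ρ z = x := fun x hx =>
    ⟨ι x, hmt x, by rw [hri]; exact inf_eq_left.2 hx⟩
  refine ⟨hG2 A Z ι honto, ρ, hG2 Z A ρ fun x hx => ?_, hρ2, hir, hri, fun x => ?_, hon2⟩
  · obtain ⟨z, -, hz⟩ := hon2 x hx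
    exact ⟨z, hz⟩
  · rw [hρt2]
    exact hye x

end Pool.Agent.H68.SF
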