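import Pool.Agent.H9.SF.QDefs

open Ordinal Cardinal Order Set
open scoped ZFSet

namespace SF.H68

open SF

/-! ### refinements -/

theorem qc_refine {C : BA} (mu : V) (f : V → El C.B) : ∃ s : V → El C.B, (∀ ξ, s ξ ≤ f ξ) ∧
    (∀ ξ ∈ mu, ∀ η ∈ mu, ξ ≠ η → s ξ ⊓ s η = ⊥) ∧
    ((⨆ ξ : El mu, f ξ.val) = ⊤ → (⨆ ξ : El mu, s ξ.val) = ⊤) := by
  classical
  let r : V → V → Prop := WellOrderingRel
  have hwo : IsWellOrder V r := WellOrderingRel.isWellOrder
  let s : V → El C.B := fun ξ => f ξ ⊓ (⨆ η : {η : El mu // r η.val ξ}, f η.1.val)ᶜ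
  have hlt : ∀ ξ ∈ mu, ∀ η ∈ mu, r η ξ → s ξ ⊓ s η = ⊥ := by
    intro ξ hξ η hη h
    have h1 : s η ≤ ⨆ η : {η : El mu // r η.val ξ}, f η.1.val :=
      inf_le_left.trans (le_iSup (fun η : {η : El mu // r η.val ξ} => f η.1.val) ⟨⟨η, hη⟩, h⟩)
    have h2 : s ξ ≤ (⨆ η : {η : El mu // r η.val ξ}, f η.1.val)ᶜ := inf_le_right
    exact le_bot_iff.1 ((inf_le_inf h2 h1).trans (le_of_eq compl_inf_eq_bot))
  refine ⟨s, fun ξ => inf_le_left, fun ξ hξ η hη hne => ?_, fun htop => ?_⟩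
  · rcases trichotomous_of r ξ η with h | h | h
    · rw [inf_comm]
      exact hlt η hη ξ hξ h
    · exact absurd h hne
    · exact hlt ξ hξ η hη h
  · rw [eq_top_iff, ← htop]
    refine iSup_le fun ξ => ?_
    obtain ⟨ξ, hξ⟩ := ξ
    show f ξ ≤ _
    have hwf : WellFounded r := hwo.wf
    induction ξ using hwf.induction with
    | _ ξ ih =>
      have h1 : (⨆ η : {η : El mu // r η.val ξ}, f η.1.val) ≤ ⨆ ξ : El mu, s ξ.val :=
        iSup_le fun η => ih η.1.val η.2 η.1.mem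
      have h2 : s ξ ≤ ⨆ ξ : El mu, s ξ.val := le_iSup (fun ξ : El mu => s ξ.val) ⟨ξ, hξ⟩
      calc f ξ = f ξ ⊓ (⨆ η : {η : El mu // r η.val ξ}, f η.1.val) ⊔ s ξ := by
            show _ = _ ⊔ f ξ ⊓ _
            rw [← inf_sup_left, sup_compl_eq_top, inf_top_eq]
        _ ≤ ⨆ ξ : El mu, s ξ.val := sup_le (inf_le_right.trans h1) h2

/-! ### trees -/

/-- binary trees with labelled leaves -/
inductive QT (α : Type 1) : Type 1
  | leaf : α → QT α
  | node : QT α → QT α → QT α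

/-- arities for the W-type -/
def qcB (α : Type 1) : α ⊕ PUnit.{2} → Type 1
  | .inl _ => PEmpty.{2}
  | .inr _ => ULift.{1} Bool

theorem qc_card (α : Type 1) [Infinite α] : #(QT α) ≤ #α := by
  have h0 : ∀ a, Finite (qcB α a) := by
    rintro (a | a)
    · exact (inferInstance : Finite PEmpty.{2})
    · exact (inferInstance : Finite (ULift.{1} Bool))
  let F : WType (qcB α) → QT α := WType.elim (QT α) (fun z => match z with
    | ⟨.inl a, _⟩ => .leaf a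
    | ⟨.inr _, g⟩ => .node (g ⟨true⟩) (g ⟨false⟩))
  have hF : Function.Surjective F := by
    intro t
    induction t with
    | leaf a => exact ⟨WType.mk (Sum.inl a) (fun z => PEmpty.elim z), rfl⟩
    | node t u ih1 ih2 =>
      obtain ⟨x, hx⟩ := ih1
      obtain ⟨y, hy⟩ := ih2
      refine ⟨WType.mk (Sum.inr PUnit.unit) (fun z : ULift.{1} Bool => if z.down then x else y), ?_⟩
      show QT.node (F x) (F y) = _
      rw [hx, hy]
  have h1 : #(QT α) ≤ #(WType (qcB α)) := Cardinal.mk_le_of_surjective hF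
  have h2 : #(WType (qcB α)) ≤ max #(α ⊕ PUnit.{2}) ℵ₀ := by
    have h3 := WType.cardinalMk_le_max_aleph0_of_finite' (β := qcB α)
    rwa [Cardinal.lift_id] at h3
  refine (h1.trans h2).trans (max_le ?_ (Cardinal.infinite_iff.1 inferInstance))
  rw [Cardinal.mk_sum]
  simp only [Cardinal.lift_id]
  refine (Cardinal.add_le_max _ _).trans (max_le (max_le le_rfl ?_) ?_)
  · exact (Cardinal.mk_le_aleph0).trans (Cardinal.infinite_iff.1 inferInstance)
  · exact Cardinal.infinite_iff.1 inferInstance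

/-- a surjection from the countable ordinals onto the trees -/
theorem qc_surj : ∃ e : Set.Iio o1 → QT (Set.Iio o1), Function.Surjective e := by
  have hc : #(Set.Iio o1) = ℵ_ 1 := by
    rw [Cardinal.mk_Iio_ordinal]
    unfold o1
    simp
  have hinf : Infinite (Set.Iio o1) := by
    rw [Cardinal.infinite_iff, hc]
    exact Cardinal.aleph0_le_aleph 1
  have h1 := qc_card (Set.Iio o1)
  obtain ⟨g⟩ := Cardinal.le_def _ _ |>.1 h1
  have hne : Nonempty (QT (Set.Iio o1)) := ⟨.leaf (Classical.arbitrary _)⟩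
  exact ⟨Function.invFun g, Function.invFun_surjective g.injective⟩

theorem qc (hQB : T_QB) (hMB : T_MB) : T_QC := by
  classical
  intro A mu ρ hA hρ C k hT d hd
  obtain ⟨q1, q2, q3, q4⟩ := hQB A mu ρ hA hρ C k hT
  obtain ⟨hmono, -, -, -, -, -, -⟩ := hMB A.B C.B k.toMor
  choose ref hr1 hr2 hr3 using qc_refine (C := C) mu
  let fl : Set.Iio o1 → V → El C.B := fun i ξ => c1 A C mu ρ ξ ⊓ k (d i.1 ξ)
  let fn : (V → El C.B) → (V → El C.B) → V → El C.B := fun a b ζ =>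
    ⨆ ξ : El mu, ⨆ η : El mu, a ξ.val ⊓ b η.val ⊓
      (c1 A C mu ρ ζ ⊓ k (rv A ρ ζ ξ.val ⊓ rv A ρ ζ η.val))
  let sT : QT (Set.Iio o1) → V → El C.B := fun t =>
    QT.rec (motive := fun _ => V → El C.B) (fun i => ref (fl i)) (fun _ _ a b => ref (fn a b)) t
  have sTl : ∀ i, sT (.leaf i) = ref (fl i) := fun _ => rfl
  have sTn : ∀ t u, sT (.node t u) = ref (fn (sT t) (sT u)) := fun _ _ => rfl
  have inv : ∀ t, (∀ ξ ∈ mu, sT t ξ ≤ c1 A C mu ρ ξ) ∧
      (∀ ξ ∈ mu, ∀ η ∈ mu, ξ ≠ η → sT t ξ ⊓ sT t η = ⊥) ∧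
      (⨆ ξ : El mu, sT t ξ.val) = ⊤ := by
    intro t
    induction t with
    | leaf i =>
      rw [sTl]
      exact ⟨fun ξ _ => (hr1 _ ξ).trans inf_le_left, hr2 _, hr3 _ (q3 _ (hd i.1 i.2))⟩
    | node t u ih1 ih2 =>
      rw [sTn]
      obtain ⟨a1, -, a3⟩ := ih1
      obtain ⟨b1, -, b3⟩ := ih2
      refine ⟨fun ζ _ => (hr1 _ ζ).trans ?_, hr2 _, hr3 _ ?_⟩
      · exact iSup_le fun ξ => iSup_le fun η => inf_le_right.trans inf_le_left
      · rw [eq_top_iff]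
        have h1 : (⊤ : El C.B) = ⨆ ξ : El mu, ⨆ η : El mu, sT t ξ.val ⊓ sT u η.val := by
          rw [← top_inf_eq (⊤ : El C.B)]
          nth_rewrite 1 [← a3]
          rw [← b3, iSup_inf_eq]
          refine iSup_congr fun ξ => ?_
          rw [inf_iSup_eq]
        rw [h1]
        refine iSup_le fun ξ => iSup_le fun η => ?_
        have h2 : sT t ξ.val ⊓ sT u η.val ≤ c1 A C mu ρ ξ.val ⊓ c1 A C mu ρ η.val :=
          inf_le_inf (a1 _ ξ.mem) (b1 _ η.mem)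
        have h3 := h2.trans (q2 _ ξ.mem _ η.mem)
        calc sT t ξ.val ⊓ sT u η.val
            ≤ sT t ξ.val ⊓ sT u η.val ⊓ ⨆ ζ : El mu, c1 A C mu ρ ζ.val ⊓
                k (rv A ρ ζ.val ξ.val ⊓ rv A ρ ζ.val η.val) := le_inf le_rfl h3
          _ = ⨆ ζ : El mu, sT t ξ.val ⊓ sT u η.val ⊓ (c1 A C mu ρ ζ.val ⊓
                k (rv A ρ ζ.val ξ.val ⊓ rv A ρ ζ.val η.val)) := inf_iSup_eq _ _
          _ ≤ _ := iSup_mono fun ζ => le_iSup₂_of_le ξ η le_rfl
  have hnode : ∀ t u, ∀ ζ ∈ mu, ∀ ξ ∈ mu,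
      sT (.node t u) ζ ⊓ sT t ξ ≤ k (rv A ρ ζ ξ) ∧ sT (.node t u) ζ ⊓ sT u ξ ≤ k (rv A ρ ζ ξ) := by
    intro t u ζ hζ ξ hξ
    obtain ⟨a1, a2, a3⟩ := inv t
    obtain ⟨b1, b2, b3⟩ := inv u
    have h0 : sT (.node t u) ζ ≤ fn (sT t) (sT u) ζ := by
      rw [sTn]
      exact hr1 _ ζ
    constructor
    · refine (inf_le_inf_right _ h0).trans ?_
      simp only [fn, iSup_inf_eq]
      refine iSup_le fun ξ' => iSup_le fun η' => ?_
      by_cases he : ξ'.val = ξ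
      · refine (inf_le_left.trans inf_le_right).trans (inf_le_right.trans ?_)
        rw [he]
        exact hmono _ _ inf_le_left
      · refine le_trans ?_ (bot_le (a := k (rv A ρ ζ ξ)))
        rw [← a2 _ ξ'.mem _ hξ he]
        exact inf_le_inf_right _ (inf_le_left.trans inf_le_left)
    · refine (inf_le_inf_right _ h0).trans ?_
      simp only [fn, iSup_inf_eq]
      refine iSup_le fun ξ' => iSup_le fun η' => ?_
      by_cases he : η'.val = ξ
      · refine (inf_le_left.trans inf_le_right).trans (inf_le_right.trans ?_)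
        rw [he]
        exact hmono _ _ inf_le_right
      · refine le_trans ?_ (bot_le (a := k (rv A ρ ζ ξ)))
        rw [← b2 _ η'.mem _ hξ he]
        exact inf_le_inf_right _ (inf_le_left.trans inf_le_right)
  obtain ⟨e, he⟩ := qc_surj
  choose e' he' using he
  refine ⟨fun n => if h : n < o1 then sT (e ⟨n, h⟩) else fun _ => ⊥,
    fun i => if h : i < o1 then (e' (.leaf ⟨i, h⟩)).1 else 0,
    fun n l => if h : n < o1 ∧ l < o1 then (e' (.node (e ⟨n, h.1⟩) (e ⟨l, h.2⟩))).1 else 0,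
    fun n hn => ?_, fun n hn => ?_, fun i hi => ?_, fun n hn l hl => ?_⟩
  · simp only [dif_pos hn]
    exact (inv _).2.2
  · simp only [dif_pos hn]
    exact (inv _).2.1
  · simp only [dif_pos hi]
    have h1 : (e' (.leaf ⟨i, hi⟩)).1 < o1 := (e' (.leaf ⟨i, hi⟩)).2
    refine ⟨h1, fun ξ _ => ?_⟩
    rw [dif_pos h1]
    have h2 : e ⟨(e' (.leaf ⟨i, hi⟩)).1, h1⟩ = .leaf ⟨i, hi⟩ := he' _
    rw [h2, sTl]
    exact (hr1 _ ξ).trans inf_le_right
  · simp only [dif_pos hn, dif_pos hl, dif_pos (And.intro hn hl)]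
    have h1 : (e' (.node (e ⟨n, hn⟩) (e ⟨l, hl⟩))).1 < o1 := (e' _).2
    refine ⟨h1, fun ζ hζ ξ hξ => ?_⟩
    rw [dif_pos h1]
    have h2 : e ⟨(e' (.node (e ⟨n, hn⟩) (e ⟨l, hl⟩))).1, h1⟩ =
        .node (e ⟨n, hn⟩) (e ⟨l, hl⟩) := he' _
    rw [h2]
    exact hnode _ _ ζ hζ ξ hξ

end SF.H68
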