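import Pool.Agent.H72.SF.XT

open Ordinal Cardinal Order Set
open scoped ZFSet

namespace SF.H68

open SF

theorem xd (hX4 : T_X4) (hMB : T_MB) : T_XD := by
  intro A hA hF r b hb
  obtain ⟨Z, k, e, hk, hkt, hinj, hgv, hcmp, hD⟩ := hX4 A hA r
  obtain ⟨-, -, -, hcompl, -, -, -⟩ := hMB A.B Z.B k.toMor
  let D : Ordinal.{0} → Set (El Z.B) := fun β =>
    {z | ∃ t ∈ Tcl, (∃ γ ∈ t, β.toZFSet ∈ γ) ∧ z = e t}
  have hpt : b ≤ k.proj (k ⊤) := by
    have h1 : k.proj (k ⊤) = ⊤ := by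
      rw [eq_top_iff]
      refine le_sInf fun x hx => ?_
      have hx1 : k ⊤ ≤ k x := hx
      have h2 : k xᶜ = (k x)ᶜ ⊓ k ⊤ := hcompl x
      have h3 : k xᶜ = ⊥ := by
        rw [h2]
        refine le_bot_iff.1 ((inf_le_inf_left _ hx1).trans (le_of_eq ?_))
        rw [inf_comm, inf_compl_eq_bot]
      have h4 := hinj _ h3
      rw [compl_eq_bot] at h4
      rw [h4]
    rw [h1]
    exact le_top
  obtain ⟨b2, hb2, hb2n, F, f1, f2, f3, f4, f5, f6⟩ := hF Z k hk D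
    (fun i hi => (hD i hi).trans hkt.symm) b hpt hb
  have hmono : ∀ c d, c ≤ d → F c ≤ F d := fun c d h => by
    have h1 := f1 c d
    rw [inf_eq_left.2 h] at h1
    rw [h1]
    exact inf_le_right
  refine ⟨b2, hb2, hb2n, fun t => F (e t), fun t _ => f4 _, fun t ht t' ht' hne => ?_,
    fun β hβ => ?_, fun t ht δ _ hδt => ?_⟩
  · refine hcmp t ht t' ht' fun h0 => hne ?_
    show F (e t) ⊓ F (e t') = ⊥
    rw [← f1, h0, f2]
  · rw [← f6 β hβ]
    refine iSup₂_le fun d hd => ?_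
    obtain ⟨t, ht, hγ, rfl⟩ := hd
    exact le_iSup₂_of_le t ⟨ht, hγ⟩ le_rfl
  · refine (hmono _ _ (hgv t ht δ hδt)).trans ?_
    rw [f5]
    exact inf_le_left

end SF.H68
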