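import Pool.Agent.H72.SF.YT

open Ordinal Cardinal Order Set
open scoped ZFSet

namespace SF.H68

open SF

/-- the relation between the graph of a restricted morphism and the graph of the morphism -/
def ygR (M : V → Prop) (v : ℕ → V) : Prop := ∀ x, M x → ∀ y, M y →
  ((ZFSet.pair x y ∈ v 1 ↔ x ∈ v 0 ∧ ∃ z, M z ∧ ZFSet.pair x z ∈ v 2 ∧ y = z ∩ v 3) ∧
    (ZFSet.pair x y ∈ v 2 → x ∈ v 0 ∧ y ∈ v 4))

theorem yg_dfb : Dfb ZFm ygR := by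
  have h1 : Dfb ZFm (fun M u => ∃ z, M z ∧ (ZFSet.pair (u 1) z ∈ u 4 ∧ u 0 = z ∩ u 5)) :=
    (Dfb.ex (R := fun _ w => ZFSet.pair (w 2) (w 0) ∈ w 5 ∧ w 1 = w 0 ∩ w 6)
      ((Dfb.pairMem (Tm.var 2) (Tm.var 0) (Tm.var 5)).and
        (Dfb.eq (Tm.var 1) (Tm.inter (Tm.var 0) (Tm.var 6))))).congr fun M k v hv => Iff.rfl
  have h2 : Dfb ZFm (fun M u => (ZFSet.pair (u 1) (u 0) ∈ u 3 ↔ u 1 ∈ u 2 ∧
      ∃ z, M z ∧ (ZFSet.pair (u 1) z ∈ u 4 ∧ u 0 = z ∩ u 5)) ∧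
      (ZFSet.pair (u 1) (u 0) ∈ u 4 → u 1 ∈ u 2 ∧ u 0 ∈ u 6)) :=
    ((Dfb.pairMem (Tm.var 1) (Tm.var 0) (Tm.var 3)).iff
      ((Dfb.mem (Tm.var 1) (Tm.var 2)).and h1)).and
      ((Dfb.pairMem (Tm.var 1) (Tm.var 0) (Tm.var 4)).imp
        ((Dfb.mem (Tm.var 1) (Tm.var 2)).and (Dfb.mem (Tm.var 0) (Tm.var 6))))
  exact h2.all.all.congr fun M k v hv => Iff.rfl

theorem yg_gr {B C : V} [IsCBA B] [IsCBA C] (h : Mor B C) {x y : V} :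
    ZFSet.pair x y ∈ h.gr ↔ ∃ z : El B, z.val = x ∧ (h z).val = y := by
  unfold Mor.gr
  rw [ZFSet.mem_range]
  refine exists_congr fun z => ?_
  rw [ZFSet.pair_inj]

theorem yg_le {N' N B : V} [IsCBA B] {b : El B} {σ : V → V → El B} (m : BMap N' N b σ)
    {x y : V} (hx : x ∈ N') : σ x y ≤ b := by
  rw [← m.tot x hx]
  exact le_iSup (fun y => σ x y) y

theorem yg (hG5 : T_G5) (hAP : T_AP) (hAM : T_AM) (hAF : T_AF) (hTR : T_TR) (hMB : T_MB)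
    (hZN : T_ZN) : T_YG := by
  classical
  intro A C h b2 hbad p b0 hb02 hb0
  obtain ⟨hmono, -, -, -, -, -, -⟩ := hMB A.B C.B h.toMor
  have hng := hbad b0 hb02 hb0
  set hr : BMor A C := h.res (h b0) with hhr
  have hrx : ∀ x, hr x = h x ⊓ h b0 := fun _ => rfl
  unfold Good at hng
  push Not at hng
  obtain ⟨F, q, hq, hnl⟩ := hng (ZFSet.pair p (ZFSet.pair h.gr b0.val))
  obtain ⟨ap1, ap2, ap3, ap4, ap5, ap6⟩ := hAP A.B F.N' F.N F.b F.σ F.np F.map F.ne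
  have hle : ∀ x y, x ∈ F.N' → F.b ≤ F.σ x y → F.σ x y = F.b := fun x y hx h1 =>
    le_antisymm (yg_le F.map hx) h1
  -- the components of the parameter
  obtain ⟨p1, hp1, x2, hx2, hpp, hle1⟩ := ap2 F.p' p (ZFSet.pair h.gr b0.val) (by
    rw [F.kp]
    exact F.ne)
  rw [F.kp] at hle1
  have kp1 : F.σ p1 p = F.b := hle _ _ hp1 (hle1.trans inf_le_left)
  have kx2 : F.σ x2 (ZFSet.pair h.gr b0.val) = F.b := hle _ _ hx2 (hle1.trans inf_le_right)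
  obtain ⟨h1, hh1, b1, hb1, hxx, hle2⟩ := ap2 x2 h.gr b0.val (by
    rw [kx2]
    exact F.ne)
  rw [kx2] at hle2
  have kh1 : F.σ h1 h.gr = F.b := hle _ _ hh1 (hle2.trans inf_le_left)
  have kb1 : F.σ b1 b0.val = F.b := hle _ _ hb1 (hle2.trans inf_le_right)
  have am : ∀ x y x2 y2, F.σ x y = F.b → F.σ x2 y2 = F.b → (x ∈ x2 ↔ y ∈ y2) :=
    fun x y x2 y2 e1 e2 => (hAM A.B F.N' F.N F.b F.σ F.np F.map x y x2 y2 (by
      rw [e1, e2, inf_idem]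
      exact F.ne)).1
  have hb1B : b1 ∈ F.B' := (am _ _ _ _ kb1 F.kB).2 b0.mem
  obtain ⟨-, y0, hy0, hy0u, -, hy0v⟩ := hAF A.B F.N' F.N F.b F.σ F.np F.map F.ne h1 h.gr F.B' A.B
    kh1 F.kB (by
      intro y hy
      refine ⟨(h ⟨y, hy⟩).val, (yg_gr _).2 ⟨⟨y, hy⟩, rfl, rfl⟩, fun z hz => ?_⟩
      obtain ⟨w, hw1, hw2⟩ := (yg_gr _).1 hz
      subst hw1
      exact hw2.symm) b1 hb1B
  have ky0 : F.σ y0 (h b0).val = F.b := by
    refine hle _ _ hy0 ?_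
    rw [← kb1]
    exact hy0v _ _ ((yg_gr _).2 ⟨b0, rfl, rfl⟩)
  have hy0C : y0 ∈ F.C' := (am _ _ _ _ ky0 F.kC).2 (h b0).mem
  -- transfer
  have hN'Z : ZFCm (· ∈ F.N') := hZN A.B F.N' F.N F.b F.σ F.np F.map F.ne
  have htr := hTR ygR yg_dfb A.B F.N' F.N F.b F.σ F.np F.map
    {(F.B', A.B), (F.h', hr.gr), (h1, h.gr), (y0, (h b0).val), (F.C', C.B)} (by
      simp only [Finset.inf_insert, Finset.inf_singleton]
      rw [F.kB, F.kh, kh1, ky0, F.kC, inf_idem, inf_idem, inf_idem, inf_idem]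
      exact F.ne)
    (fun i => match i with
      | 0 => (F.B', A.B)
      | 1 => (F.h', hr.gr)
      | 2 => (h1, h.gr)
      | 3 => (y0, (h b0).val)
      | _ => (F.C', C.B)) (by
      intro i
      rcases i with _ | _ | _ | _ | i <;> simp)
  have hCN : C.B ∈ F.N := (F.map.dom F.C' C.B (by rw [F.kC]; exact F.ne)).2
  have hRN : ygR (· ∈ F.N) (fun i => (match i with
      | 0 => (F.B', A.B)
      | 1 => (F.h', hr.gr)
      | 2 => (h1, h.gr)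
      | 3 => (y0, (h b0).val)
      | _ => (F.C', C.B) : V × V).2) := by
    intro x hx y hy
    show (ZFSet.pair x y ∈ hr.gr ↔ x ∈ A.B ∧ ∃ z, z ∈ F.N ∧ ZFSet.pair x z ∈ h.gr ∧
      y = z ∩ (h b0).val) ∧ (ZFSet.pair x y ∈ h.gr → x ∈ A.B ∧ y ∈ C.B)
    constructor
    · rw [yg_gr]
      constructor
      · rintro ⟨z, rfl, hz⟩
        refine ⟨z.mem, (h z).val, F.np.zfc.trans _ hCN _ (h z).mem, (yg_gr _).2 ⟨z, rfl, rfl⟩, ?_⟩
        rw [← hz]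
        exact El.inf_val _ _
      · rintro ⟨hxB, z, -, hz, rfl⟩
        obtain ⟨w, rfl, rfl⟩ := (yg_gr _).1 hz
        exact ⟨w, rfl, El.inf_val _ _⟩
    · intro hxy
      obtain ⟨w, rfl, rfl⟩ := (yg_gr _).1 hxy
      exact ⟨w.mem, (h w).mem⟩
  have hR := htr.2 hRN
  have R1 : ∀ x ∈ F.N', ∀ y ∈ F.N', (ZFSet.pair x y ∈ F.h' ↔ x ∈ F.B' ∧ ∃ z, z ∈ F.N' ∧
      ZFSet.pair x z ∈ h1 ∧ y = z ∩ y0) := fun x hx y hy => (hR x hx y hy).1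
  have R2 : ∀ x ∈ F.N', ∀ y ∈ F.N', ZFSet.pair x y ∈ h1 → x ∈ F.B' ∧ y ∈ F.C' :=
    fun x hx y hy => (hR x hx y hy).2
  have hh'N : F.h' ∈ F.N' := (F.map.dom F.h' hr.gr (by rw [F.kh]; exact F.ne)).1
  have htop : ∃ x z, ZFSet.pair x z ∈ h1 ∧ z ∈ F.G' ∧ ∃ y ∈ F.G', y ⊆ y0 := by
    obtain ⟨x, y, hxy, hyG⟩ := F.top
    obtain ⟨hxN, hyN⟩ := hN'Z.toZFm.of_pair_mem hh'N hxy
    obtain ⟨-, z, hzN, hxz, rfl⟩ := (R1 x hxN y hyN).1 hxy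
    refine ⟨x, z, hxz, F.gen.up _ hyG z (R2 x hxN z hzN hxz).2
      (fun t ht => (ZFSet.mem_inter.1 ht).1), _, hyG, fun t ht => (ZFSet.mem_inter.1 ht).2⟩
  obtain ⟨x, z, hxz, hzG, y, hyG, hyy0⟩ := htop
  have hy0G : y0 ∈ F.G' := F.gen.up y hyG y0 hy0C hyy0
  have hcom : ∀ x y, ZFSet.pair x y ∈ h1 → y ∈ F.G' → ∀ z, F.σ x z ≤ mkEl A.B z := by
    intro x y hxy hy z
    obtain ⟨hxN, hyN⟩ := hN'Z.toZFm.of_pair_mem hh1 hxy
    have h3 := F.gen.inter y hy y0 hy0G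
    have h4 : y ∩ y0 ∈ F.N' := hN'Z.trans _ (F.map.dom F.C' C.B (by rw [F.kC]; exact F.ne)).1 _
      (F.gen.sub h3)
    exact F.com x (y ∩ y0) ((R1 x hxN _ h4).2 ⟨(R2 x hxN y hyN hxy).1, y, hyN, hxy, rfl⟩) h3 z
  let F2 : Frame h p :=
    { N' := F.N', N := F.N, b := F.b, σ := F.σ, w := F.w, B' := F.B', C' := F.C', h' := h1,
      p' := p1, G' := F.G', np := F.np, ne := F.ne, map := F.map, kw := F.kw, kB := F.kB,
      kC := F.kC, kh := kh1, kp := kp1, gen := F.gen, top := ⟨x, z, hxz, hzG⟩, com := hcom,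
      sc := F.sc }
  have hFb : F.b ≤ b0 := by
    have h3 := hcom b1 y0 ((hy0u y0).2 rfl) hy0G b0.val
    rw [kb1] at h3
    have h4 : mkEl A.B b0.val = b0 := by
      unfold mkEl
      rw [dif_pos b0.mem]
    rwa [h4] at h3
  have hnl2 : ¬ ∃ c σ', IsLift F2 q c σ' := by
    rintro ⟨c, σ', hl⟩
    refine hnl c σ' ⟨?_, ?_, hl.map, hl.com, ?_⟩
    · rw [hrx]
      exact le_inf hl.le (hl.le.trans (hmono _ _ hFb))
    · intro b hb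
      rw [hrx] at hb
      exact hl.proj b (hb.trans inf_le_left)
    · intro z
      refine le_trans ?_ (hl.keep z)
      rw [hrx]
      exact inf_le_inf_left _ inf_le_left
  obtain ⟨F1, hF1, hF1b⟩ := (hG5 A C h p F2 q hq).2 hnl2
  refine ⟨F1, hF1.2.2.1.trans hFb, q, ?_, hF1b⟩
  rw [hF1.1]
  exact hq

end SF.H68
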