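import Pool.Agent.H68.SF.LT
import Pool.Agent.H9.SF.FDefs

/-! Part L (constructibility): exact targets, second list: ordinal arithmetic, enumerations,
coding. -/

open Ordinal Cardinal Order Set
open scoped ZFSet

namespace SF

/-! ### ordinal arithmetic -/

/-- sum and product of ordinals -/
def T_LAR : Prop :=
  Tm ZFm (fun _ v => ((v 0).rank + (v 1).rank).toZFSet) ∧
  Tm ZFm (fun _ v => ((v 0).rank * (v 1).rank).toZFSet)

/-! ### enumerations by ordinals -/

/-- `g` is an enumeration of `x` by (some) ordinals: a function defined on a set of ordinals, with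
range `x` -/
structure Enm (g x : V) : Prop where
  pr : ∀ q ∈ g, ∃ (ξ : Ordinal.{0}) (y : V), y ∈ x ∧ q = ZFSet.pair ξ.toZFSet y
  svl : Svl g
  onto : ∀ y ∈ x, ∃ ξ, ZFSet.pair ξ y ∈ g

/-- enumerations give surjections from ordinals and conversely -/
def T_LEO : Prop := ∀ (M : V → Prop), ZFm M → ∀ x, M x →
  ((∃ g, M g ∧ Enm g x) ↔ ∃ (α : Ordinal.{0}) (f : V), M f ∧ Onto f α.toZFSet x)

/-- the enumeration of a product: `(λ ξ + δ, (u, w))` for `(ξ, u) ∈ g`, `(δ, w) ∈ h`, where `λ` is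
the rank of `h` -/
noncomputable def enP (g h : V) : V := imS (ZFSet.prod g h) fun t =>
  ZFSet.pair (h.rank * (fst (fst t)).rank + (fst (snd t)).rank).toZFSet
    (ZFSet.pair (snd (fst t)) (snd (snd t)))

/-- the enumeration of the image under `F` -/
noncomputable def enI (g : V) (F : V → V) : V := imS g fun q => ZFSet.pair (fst q) (F (snd q))

/-- the enumeration of a union: `H` is a function defined on a set of ordinals with values
enumerations; `(λ i + ξ, y)` for `(i, g) ∈ H` and `(ξ, y) ∈ g`, where `λ` is the rank of `H` -/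
noncomputable def enU (H : V) : V :=
  (⋃₀ (imS H fun t => imS (snd t) fun q =>
    ZFSet.pair (H.rank * (fst t).rank + (fst q).rank).toZFSet (snd q)) : ZFSet)

/-- enumerations of products, images, unions -/
def T_LEP : Prop :=
  (∀ g h x y, Enm g x → Enm h y → Enm (enP g h) (ZFSet.prod x y)) ∧
  (∀ g x (F : V → V), Enm g x → Enm (enI g F) (imS x F)) ∧
  (∀ H I : V, Enm H I → (∀ t ∈ H, Enm (snd t) (rg (snd t))) →
    Enm (enU H) (⋃₀ (imS H fun t => rg (snd t)) : ZFSet))

/-- definability of the enumerations -/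
def T_LEQ : Prop :=
  Tm ZFm (fun _ v => enP (v 0) (v 1)) ∧ Tm ZFm (fun _ v => enU (v 0)) ∧
  ∀ f g : (V → Prop) → (ℕ → V) → V, Tm ZFm f → Tm ZFm g →
    Tm ZFm (fun M v => enI (f M v) fun x => g M (cons x v))

/-- canonical enumerations of the levels (global choice in `L[A]`) -/
def T_LEN : Prop := ∀ (M : V → Prop), ZFm M → ∀ a A g, M a → M A → M g → a.IsTransitive →
  Enm g a → ∀ α : Ordinal.{0}, M α.toZFSet → ∃ g', M g' ∧ Enm g' (Lh a A α)

/-! ### codes of sets by sets of tuples of ordinals -/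

/-- all elements are pairs of pairs of ordinals -/
def IsCode (A : V) : Prop := ∀ q ∈ A, ∃ ρ ξ ρ' ξ' : Ordinal.{0},
  q = ZFSet.pair (ZFSet.pair ρ.toZFSet ξ.toZFSet) (ZFSet.pair ρ'.toZFSet ξ'.toZFSet)

/-- decoding: the set with the index `i` -/
noncomputable def dec (A i : V) : V :=
  ZFSet.range fun q : (A.sep fun q => ∃ j, q = ZFSet.pair j i ∧ fst j ∈ fst i : V) =>
    dec A (fst q.1)
termination_by (fst i).rank
decreasing_by
  obtain ⟨-, j, h, h2⟩ := ZFSet.mem_sep.1 q.2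
  rw [h, fst_pair]
  exact ZFSet.rank_lt_of_mem h2

/-- the decoding function is definable -/
def T_LDC : Prop :=
  (∀ A i y, y ∈ dec A i ↔ ∃ j, ZFSet.pair j i ∈ A ∧ fst j ∈ fst i ∧ y = dec A j) ∧
  Tm ZFm (fun _ v => dec (v 0) (v 1))

/-- every set of a model of `ZFC⁻` has a code in the model -/
def T_LCD : Prop := ∀ (M : V → Prop), ZFCm M → ∀ p, M p → ∃ (A : V) (ρ ξ : Ordinal.{0}),
  IsCode A ∧ M A ∧ M ρ.toZFSet ∧ M ξ.toZFSet ∧
    dec A (ZFSet.pair ρ.toZFSet ξ.toZFSet) = p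

/-- a code is constructible from itself -/
def T_LCI : Prop := ∀ A, IsCode A → ∀ γ : Ordinal.{0}, A.rank + 5 < γ → A ∈ LA A γ

/-- a model of `ZFC⁻` which is minimal over one of its elements is of the form `L[B]` -/
def T_LMI : Prop := ∀ (N : V) (τ : Ordinal.{0}), ZFCm (· ∈ N) →
  (∀ α : Ordinal.{0}, α.toZFSet ∈ N ↔ α < τ) → ∀ p ∈ N,
  (∀ M : V, ZFm (· ∈ M) → (∀ α : Ordinal.{0}, α.toZFSet ∈ M ↔ α < τ) → p ∈ M → M ⊆ N → N ⊆ M) →
  ∃ B ∈ N, IsCode B ∧ N = LA B τ

/-- `V` is a model of `ZFC⁻` -/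
def T_LVV : Prop := ZFCm (fun _ => True)

end SF
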