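import Pool.Agent.H72.SF.VT
import Pool.Agent.H9.SF.FD2
import Pool.Agent.H7.SF.ElemS

/-! `T_VL`: a map in the extension by the two-step forcing gives a lift in the model. -/

set_option linter.unusedVariables false

open Ordinal Cardinal Order Set
open scoped ZFSet

namespace SF.H68

open SF

/-! ### the forced statement -/

/-- the forced statement -/
def vlT (f K N' N q σ G' C b : V) : Prop :=
  IsElem N' N f ∧ app f q = app (evF σ (dm K)) q ∧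
    (∀ z ∈ G', app f z ∈ C ∧ ∃ t ∈ K, t ∈ app f z) ∧ b ∈ dm K

theorem vl_tm_evF : Tm ZFm (fun _ v => evF (v 0) (v 1)) :=
  (Tm.sep (R := fun _ v => app (v 1) (v 0) ∈ v 2)
    (Dfb.mem ((Tm.var 1).app (Tm.var 0)) (Tm.var 2)) (Tm.var 0).dm).congr fun M k v hv => rfl

theorem vl_dfb : Dfb ZFm (fun _ v => vlT (v 0) (v 1) (v 2) (v 3) (v 4) (v 5) (v 6) (v 7) (v 8)) := by
  have h1 : Dfb ZFm (fun _ v => IsElem (v 2) (v 3) (v 0)) :=
    Dfb.isElem (Tm.var 2) (Tm.var 3) (Tm.var 0)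
  have h2 : Dfb ZFm (fun _ v => app (v 0) (v 4) = app (evF (v 5) (dm (v 1))) (v 4)) :=
    Dfb.eq ((Tm.var 0).app (Tm.var 4)) ((Tm.at2 (F := fun _ x y => evF x y) vl_tm_evF
      (Tm.var 5) (Tm.var 1).dm).app (Tm.var 4))
  have h3 : Dfb ZFm (fun _ v => ∀ z ∈ v 6, app (v 0) z ∈ v 7 ∧ ∃ t ∈ v 1, t ∈ app (v 0) z) := by
    refine (Dfb.ball (R := fun _ v => app (v 1) (v 0) ∈ v 8 ∧ ∃ t ∈ v 2, t ∈ app (v 1) (v 0))
      ktr_zfm (Tm.var 6) ?_).congr fun M k v hv => Iff.rfl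
    refine (Dfb.mem ((Tm.var 1).app (Tm.var 0)) (Tm.var 8)).and ?_
    exact (Dfb.bex (R := fun _ v => v 0 ∈ app (v 2) (v 1)) ktr_zfm (Tm.var 2)
      (Dfb.mem (Tm.var 0) ((Tm.var 2).app (Tm.var 1)))).congr fun M k v hv => Iff.rfl
  have h4 : Dfb ZFm (fun _ v => v 8 ∈ dm (v 1)) := Dfb.mem (Tm.var 8) (Tm.var 1).dm
  exact (h1.and (h2.and (h3.and h4))).congr fun M k v hv => Iff.rfl

/-- the names -/
noncomputable def vlN (c n N' N q σ G' C b : V) : ℕ → V :=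
  cons n (cons (gn c) (cons (ck c N') (cons (ck c N) (cons (ck c q) (cons (ck c σ)
    (cons (ck c G') (cons (ck c C) (fun _ => ck c b))))))))

theorem vl_force (hFG : T_FG) (hFH : T_FH) (hFI : T_FI) {M : V → Prop} {c r K : V} (kM : ZFm M)
    (hc : M c) (hr : M r) (hpo : IsPo c r) (hK : Gen M c r K) {n N' N q σ G' C b : V}
    (hn : M n) (hN' : M N') (hN : M N) (hq : M q) (hσ : M σ) (hG' : M G') (hC : M C) (hb : M b)
    (hT : vlT (val K n) K N' N q σ G' C b) :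
    ∃ p1 ∈ K, ∀ K2, Gen M c r K2 → p1 ∈ K2 → vlT (val K2 n) K2 N' N q σ G' C b := by
  obtain ⟨φ, hφ⟩ := vl_dfb
  obtain ⟨-, hck, hgn, -, -, tck, tgn, -, -⟩ := hFH
  have mck : ∀ x, M x → M (ck c x) := fun x hx => tck.1 M kM (cons c fun _ => x) (by
    intro i
    rcases i with _ | i
    · exact hc
    · exact hx)
  have mgn : M (gn c) := tgn.1 M kM (fun _ => c) fun _ => hc
  have hw : In M (vlN c n N' N q σ G' C b) :=
    ((((((((In.cons (fun _ => mck b hb) (mck C hC)).cons (mck G' hG')).cons (mck σ hσ)).cons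
      (mck q hq)).cons (mck N hN)).cons (mck N' hN')).cons mgn).cons hn)
  have hval : ∀ K2, Gen M c r K2 → (Sat (Ext M K2) φ
      (fun i => val K2 (vlN c n N' N q σ G' C b i)) ↔ vlT (val K2 n) K2 N' N q σ G' C b) := by
    intro K2 hK2
    obtain ⟨kE, hME, hGE⟩ := hFI M c r K2 kM hc hr hpo hK2
    have h1 := hφ (Ext M K2) kE (fun i => val K2 (vlN c n N' N q σ G' C b i))
      (fun i => ⟨_, hw i, rfl⟩)
    rw [h1]
    have e : ∀ x, val K2 (ck c x) = x := fun x => hck c K2 x hK2.1.sub hK2.1.ne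
    have e2 : val K2 (gn c) = K2 := hgn c K2 hK2.1.sub hK2.1.ne
    show vlT (val K2 n) (val K2 (gn c)) (val K2 (ck c N')) (val K2 (ck c N)) (val K2 (ck c q))
      (val K2 (ck c σ)) (val K2 (ck c G')) (val K2 (ck c C)) (val K2 (ck c b)) ↔ _
    rw [e, e, e, e, e, e, e, e2]
  obtain ⟨p1, hp1, hf1⟩ := (hFG M c r K kM hc hr hpo hK φ _ hw).1 ((hval K hK).2 hT)
  exact ⟨p1, hp1, fun K2 hK2 hp => (hval K2 hK2).1
    ((hFG M c r K2 kM hc hr hpo hK2 φ _ hw).2 ⟨p1, hp, hf1⟩)⟩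

/-! ### the set generated by a condition -/

/-- the regular open set generated by a condition -/
noncomputable def vlC (c r p : V) : V := c.sep fun q => ∀ s ∈ c, ZFSet.pair s q ∈ r →
  ∃ u ∈ c, ZFSet.pair u s ∈ r ∧ ZFSet.pair u p ∈ r

theorem vl_tm_C : Tm ZFm (fun _ v => vlC (v 0) (v 1) (v 2)) := by
  refine (Tm.sep (R := fun _ v => ∀ s ∈ v 1, ZFSet.pair s (v 0) ∈ v 2 →
    ∃ u ∈ v 1, ZFSet.pair u s ∈ v 2 ∧ ZFSet.pair u (v 3) ∈ v 2) ?_ (Tm.var 0)).congr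
      fun M k v hv => rfl
  refine (Dfb.ball (R := fun _ v => ZFSet.pair (v 0) (v 1) ∈ v 3 →
    ∃ u ∈ v 2, ZFSet.pair u (v 0) ∈ v 3 ∧ ZFSet.pair u (v 4) ∈ v 3) ktr_zfm (Tm.var 1) ?_).congr
      fun M k v hv => Iff.rfl
  refine (Dfb.pairMem (Tm.var 0) (Tm.var 1) (Tm.var 3)).imp ?_
  exact (Dfb.bex (R := fun _ v => ZFSet.pair (v 0) (v 1) ∈ v 4 ∧ ZFSet.pair (v 0) (v 5) ∈ v 4)
    ktr_zfm (Tm.var 2) ((Dfb.pairMem (Tm.var 0) (Tm.var 1) (Tm.var 4)).and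
      (Dfb.pairMem (Tm.var 0) (Tm.var 5) (Tm.var 4)))).congr fun M k v hv => Iff.rfl

section Po

variable {c r : V}

theorem vl_lr (hpo : IsPo c r) {x y : V} (h : ZFSet.pair x y ∈ r) : x ∈ c ∧ y ∈ c := by
  obtain ⟨p, hp, q, hq, e⟩ := hpo.sub _ h
  obtain ⟨rfl, rfl⟩ := ZFSet.pair_injective e
  exact ⟨hp, hq⟩

theorem vlC_reg (hpo : IsPo c r) (p : V) : RegO c r (vlC c r p) := by
  refine ⟨fun x hx => (ZFSet.mem_sep.1 hx).1, ?_, ?_⟩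
  · intro x hx y hyx
    obtain ⟨h1, h2⟩ := ZFSet.mem_sep.1 hx
    exact ZFSet.mem_sep.2 ⟨(vl_lr hpo hyx).1, fun s hs hsy => h2 s hs (hpo.trans _ _ _ hsy hyx)⟩
  · intro x hx h
    refine ZFSet.mem_sep.2 ⟨hx, fun s hs hsx => ?_⟩
    obtain ⟨q', hq', hq's⟩ := h s hsx
    obtain ⟨h1, h2⟩ := ZFSet.mem_sep.1 hq'
    obtain ⟨u, hu, hu1, hu2⟩ := h2 q' h1 (hpo.refl _ h1)
    exact ⟨u, hu, hpo.trans _ _ _ hu1 hq's, hu2⟩

theorem vlC_le (hpo : IsPo c r) {p q : V} (h : ZFSet.pair q p ∈ r) : q ∈ vlC c r p :=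
  ZFSet.mem_sep.2 ⟨(vl_lr hpo h).1, fun s hs hsq => ⟨s, hs, hpo.refl _ hs,
    hpo.trans _ _ _ hsq h⟩⟩

theorem vlC_ext (hpo : IsPo c r) {p q : V} (h : q ∈ vlC c r p) :
    ∃ u, ZFSet.pair u q ∈ r ∧ ZFSet.pair u p ∈ r := by
  obtain ⟨h1, h2⟩ := ZFSet.mem_sep.1 h
  obtain ⟨u, -, h3, h4⟩ := h2 q h1 (hpo.refl _ h1)
  exact ⟨u, h3, h4⟩

/-- if `p` is not in the regular open set, an extension has no extension in the set -/
theorem vl_out {O p : V} (hO : RegO c r O) (hp : p ∈ c) (h : p ∉ O) :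
    ∃ q, ZFSet.pair q p ∈ r ∧ ∀ q', ZFSet.pair q' q ∈ r → q' ∉ O := by
  by_contra hne
  push Not at hne
  exact h (hO.2.2 p hp fun q hq => by
    obtain ⟨q', h1, h2⟩ := hne q hq
    exact ⟨q', h2, h1⟩)

theorem vl_inter {O O' : V} (h : RegO c r O) (h' : RegO c r O') : RegO c r (O ∩ O') := by
  refine ⟨fun x hx => h.1 (ZFSet.mem_inter.1 hx).1, ?_, ?_⟩
  · intro x hx y hy
    obtain ⟨h1, h2⟩ := ZFSet.mem_inter.1 hx
    exact ZFSet.mem_inter.2 ⟨h.2.1 x h1 y hy, h'.2.1 x h2 y hy⟩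
  · intro x hx hd
    refine ZFSet.mem_inter.2 ⟨h.2.2 x hx fun q hq => ?_, h'.2.2 x hx fun q hq => ?_⟩
    · obtain ⟨q', h1, h2⟩ := hd q hq
      exact ⟨q', (ZFSet.mem_inter.1 h1).1, h2⟩
    · obtain ⟨q', h1, h2⟩ := hd q hq
      exact ⟨q', (ZFSet.mem_inter.1 h1).2, h2⟩

end Po

/-! ### the two-step forcing -/

theorem vl_mem_pos {B x : V} : x ∈ pos B ↔ x ∈ B ∧ x ≠ ∅ := by
  unfold pos
  rw [ZFSet.mem_sdiff, ZFSet.mem_singleton]

theorem vl_mem_qS {B mu t : V} : t ∈ qS B mu ↔ ∃ x ξ, x ∈ B ∧ x ≠ ∅ ∧ ξ ∈ mu ∧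
    t = ZFSet.pair x ξ := by
  unfold qS
  rw [ZFSet.mem_prod]
  constructor
  · rintro ⟨x, hx, ξ, hξ, rfl⟩
    exact ⟨x, ξ, (vl_mem_pos.1 hx).1, (vl_mem_pos.1 hx).2, hξ, rfl⟩
  · rintro ⟨x, ξ, h1, h2, h3, rfl⟩
    exact ⟨x, vl_mem_pos.2 ⟨h1, h2⟩, ξ, h3, rfl⟩

theorem vl_mem_qR {B mu ρ s t : V} : ZFSet.pair s t ∈ qR B mu ρ ↔ s ∈ qS B mu ∧ t ∈ qS B mu ∧
    fst s ⊆ fst t ∧ fst s ⊆ app ρ (ZFSet.pair (snd s) (snd t)) := by
  unfold qR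
  rw [ZFSet.mem_sep, ZFSet.pair_mem_prod]
  simp only [fst_pair, snd_pair]
  tauto

theorem vl_tm_res : Tm ZFm (fun _ v => resS (v 0) fun x => app (v 1) x ∩ v 2) :=
  (Tm.resS (g := fun _ v => app (v 2) (v 0) ∩ v 3) (Tm.var 0)
    (((Tm.var 2).app (Tm.var 0)).inter (Tm.var 3))).congr fun M k v hv => rfl

theorem vl (hFM : T_FM) (hFG : T_FG) (hFH : T_FH) (hFI : T_FI) (hFQ : T_FQ) (hQA : T_QA)
    (hQH : T_QH) (hWG : T_WG) : T_VL := by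
  intro M B mu ρ C k N' N b σ G' q K f0 zM hct hB hBa hBne hmu hρ hpre hC hCr hCa hk hkk hN' hN
    hNt hCN hb hσ hG' hG'N hq hbm hK hbK hf0 hel hfq hcom
  have kM : ZFm (· ∈ M) := zM.toZFCm.toZFm
  have hpo : IsPo (qS B mu) (qR B mu ρ) := hQA.1 (· ∈ M) B mu ρ hBa hBne hpre
  have hP : qS B mu ∈ M := hQH.1.1 (· ∈ M) kM (cons B fun _ => mu) (by
    intro i
    rcases i with _ | i
    · exact hB
    · exact hmu)
  have hR : qR B mu ρ ∈ M := hQH.2.1.1 (· ∈ M) kM (cons B (cons mu fun _ => ρ)) (by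
    intro i
    rcases i with _ | _ | i
    · exact hB
    · exact hmu
    · exact hρ)
  have hqM : q ∈ M := kM.trans N' hN' q hq
  obtain ⟨n, hn, rfl⟩ := hf0
  obtain ⟨p1, hp1, hf1⟩ := vl_force hFG hFH hFI kM hP hR hpo hK hn hN' hN hqM hσ hG' hC hb
    ⟨hel, hfq, hcom, hbK⟩
  obtain ⟨ξ, hbξ⟩ := mem_dm.1 hbK
  obtain ⟨p0, hp0, hp01, hp0b⟩ := hK.1.dir p1 hp1 _ hbξ
  obtain ⟨b1, ξ1, hb1B, hb1ne, hξ1, hp0e⟩ := vl_mem_qS.1 (hK.1.sub hp0)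
  have hb1b : b1 ⊆ b := by
    have h1 := (vl_mem_qR.1 hp0b).2.2.1
    rwa [hp0e, fst_pair, fst_pair] at h1
  obtain ⟨c0, hc0⟩ : ∃ c0, c0 = vlC (qS B mu) (qR B mu ρ) p0 := ⟨_, rfl⟩
  have hc0r : RegO (qS B mu) (qR B mu ρ) c0 := hc0 ▸ vlC_reg hpo p0
  have hp0c : p0 ∈ c0 := hc0 ▸ vlC_le hpo (hpo.refl _ (hK.1.sub hp0))
  have hc0M : c0 ∈ M := by
    rw [hc0]
    exact vl_tm_C.1 (· ∈ M) kM (cons (qS B mu) (cons (qR B mu ρ) fun _ => p0)) (by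
      intro i
      rcases i with _ | _ | i
      · exact hP
      · exact hR
      · exact kM.trans _ hP _ (hK.1.sub hp0))
  have hc0C : c0 ∈ C := (hCr c0 hc0M).2 hc0r
  -- generic filters below elements of `c0`
  have hgen : ∀ p ∈ c0, ∃ K2, Gen (· ∈ M) (qS B mu) (qR B mu ρ) K2 ∧ p ∈ K2 ∧
      vlT (val K2 n) K2 N' N q σ G' C b := by
    intro p hp
    rw [hc0] at hp
    obtain ⟨u, hup, hu0⟩ := vlC_ext hpo hp
    obtain ⟨K2, hK2, huK⟩ := hFM (· ∈ M) (qS B mu) (qR B mu ρ) u hct hpo (vl_lr hpo hup).1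
    exact ⟨K2, hK2, hK2.1.up _ huK _ hup, hf1 K2 hK2 (hK2.1.up _ (hK2.1.up _ huK _ hu0) _ hp01)⟩
  have hden : ∀ O, RegO (qS B mu) (qR B mu ρ) O → ∀ p ∈ c0,
      (∀ K2, Gen (· ∈ M) (qS B mu) (qR B mu ρ) K2 → p ∈ K2 →
        vlT (val K2 n) K2 N' N q σ G' C b → ∃ t ∈ K2, t ∈ O) → p ∈ O := by
    intro O hO p hp h
    by_contra hpO
    obtain ⟨p', hp', hno⟩ := vl_out hO (hc0r.1 hp) hpO
    obtain ⟨K2, hK2, hp'K, hT⟩ := hgen p' (hc0r.2.1 p hp p' hp')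
    obtain ⟨t, htK, htO⟩ := h K2 hK2 (hK2.1.up _ hp'K _ hp') hT
    obtain ⟨u, -, hut, hup'⟩ := hK2.1.dir t htK p' hp'K
    exact hno u hup' (hO.2.1 t htO u hut)
  -- the nice name
  have hprod : ZFSet.prod N' N ∈ M :=
    ((Tm.var 0).prod (Tm.var 1)).1 (· ∈ M) kM (cons N' fun _ => N) (by
      intro i
      rcases i with _ | i
      · exact hN'
      · exact hN)
  obtain ⟨s, hs, hsv, hsd, hsr, hsG⟩ := hFQ (· ∈ M) (qS B mu) (qR B mu ρ) kM hP hR hpo n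
    (ZFSet.prod N' N) hn hprod
  have hsO : ∀ x ∈ N', ∀ y ∈ N, RegO (qS B mu) (qR B mu ρ) (app s (ZFSet.pair x y)) :=
    fun x hx y hy => hsr _ (ZFSet.pair_mem_prod.2 ⟨hx, hy⟩)
  have hv1 : ∀ K2, Gen (· ∈ M) (qS B mu) (qR B mu ρ) K2 →
      vlT (val K2 n) K2 N' N q σ G' C b → ∀ x ∈ N', ∀ y ∈ N, ∀ t ∈ K2,
      t ∈ app s (ZFSet.pair x y) → app (val K2 n) x = y := by
    intro K2 hK2 hT x hx y hy t ht hts
    have h1 := (hsG K2 hK2 _ (ZFSet.pair_mem_prod.2 ⟨hx, hy⟩)).2 ⟨t, ht, hts⟩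
    exact ((pair_mem_iff_app hT.1.func).1 h1).2.symm
  have hv2 : ∀ K2, Gen (· ∈ M) (qS B mu) (qR B mu ρ) K2 →
      vlT (val K2 n) K2 N' N q σ G' C b → ∀ x ∈ N', ∃ t ∈ K2,
      t ∈ app s (ZFSet.pair x (app (val K2 n) x)) := by
    intro K2 hK2 hT x hx
    exact (hsG K2 hK2 _ (ZFSet.pair_mem_prod.2 ⟨hx, app_mem hT.1.func hx⟩)).1
      (pair_app_mem hT.1.func hx)
  obtain ⟨σ', hσ'⟩ : ∃ σ', σ' = resS (ZFSet.prod N' N) fun x => app s x ∩ c0 := ⟨_, rfl⟩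
  have hσ'M : σ' ∈ M := by
    rw [hσ']
    exact vl_tm_res.1 (· ∈ M) kM (cons (ZFSet.prod N' N) (cons s fun _ => c0)) (by
      intro i
      rcases i with _ | _ | i
      · exact hprod
      · exact hs
      · exact hc0M)
  have happ' : ∀ x ∈ ZFSet.prod N' N, app σ' x = app s x ∩ c0 := by
    intro x hx
    rw [hσ', app_resS hx]
  have happ : ∀ x ∈ N', ∀ y ∈ N, app σ' (ZFSet.pair x y) = app s (ZFSet.pair x y) ∩ c0 :=
    fun x hx y hy => happ' _ (ZFSet.pair_mem_prod.2 ⟨hx, hy⟩)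
  refine ⟨b1, hb1B, hb1ne, hb1b, c0, hc0M, σ', hσ'M, ?_, ?_, ?_, ?_, ?_⟩
  · -- le
    rw [hkk, app_resS hb1B]
    intro x hx
    obtain ⟨x1, η, hx1, hx1n, hη, rfl⟩ := vl_mem_qS.1 (hc0r.1 hx)
    unfold kS
    refine ZFSet.mem_sep.2 ⟨hc0r.1 hx, ?_⟩
    rw [fst_pair]
    by_contra hnot
    obtain ⟨z, hz, hzn, hzx, hzb⟩ := (hWG.2.2.2 (· ∈ M) B hBa).1 x1 hx1 b1 hb1B hnot
    have hle : ZFSet.pair (ZFSet.pair z η) (ZFSet.pair x1 η) ∈ qR B mu ρ := by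
      refine vl_mem_qR.2 ⟨vl_mem_qS.2 ⟨z, η, hz, hzn, hη, rfl⟩, hc0r.1 hx, ?_, ?_⟩
      · rwa [fst_pair, fst_pair]
      · rw [fst_pair, snd_pair, snd_pair]
        exact hpre.refl η hη z hz
    have h1 := hc0r.2.1 _ hx _ hle
    rw [hc0] at h1
    obtain ⟨u, hu1, hu2⟩ := vlC_ext hpo h1
    obtain ⟨u1, ζ, hu1B, hu1n, hζ, rfl⟩ := vl_mem_qS.1 (vl_lr hpo hu1).1
    have h2 := (vl_mem_qR.1 hu1).2.2.1
    have h3 := (vl_mem_qR.1 hu2).2.2.1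
    rw [hp0e] at h3
    rw [fst_pair, fst_pair] at h2 h3
    refine hu1n ((ZFSet.eq_empty _).2 fun y hy => ?_)
    have h4 : y ∈ z ∩ b1 := ZFSet.mem_inter.2 ⟨h2 hy, h3 hy⟩
    rw [hzb] at h4
    exact ZFSet.notMem_empty _ h4
  · -- proj
    intro x hx hcx
    rw [hkk, app_resS hx] at hcx
    have h1 := hcx hp0c
    unfold kS at h1
    have h2 := (ZFSet.mem_sep.1 h1).2
    rwa [hp0e, fst_pair] at h2
  · -- map
    refine ⟨?_, hc0C, ?_, ?_, ?_⟩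
    · rw [hσ']
      refine isFunc_resS _ _ _ fun x hx => ?_
      have hxM : app s x ∩ c0 ∈ M :=
        (((Tm.var 0).app (Tm.var 1)).inter (Tm.var 2)).1 (· ∈ M) kM
          (cons s (cons x fun _ => c0)) (by
            intro i
            rcases i with _ | _ | i
            · exact hs
            · exact kM.trans _ hprod x hx
            · exact hc0M)
      exact (hCr _ hxM).2 (vl_inter (hsr x hx) hc0r)
    · intro x hx
      refine ⟨hc0C, ?_, ?_⟩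
      · intro z hz
        obtain ⟨y, hy, rfl⟩ := mem_imS.1 hz
        rw [happ x hx y hy]
        exact fun w hw => (ZFSet.mem_inter.1 hw).2
      · intro d hd hall p hp
        refine hden d ((hCr d (kM.trans _ hC d hd)).1 hd) p hp fun K2 hK2 hpK hT => ?_
        obtain ⟨t, htK, hts⟩ := hv2 K2 hK2 hT x hx
        obtain ⟨u, huK, hut, hup⟩ := hK2.1.dir t htK p hpK
        have hy : app (val K2 n) x ∈ N := app_mem hT.1.func hx
        refine ⟨u, huK, hall _ (mem_imS.2 ⟨_, hy, rfl⟩) ?_⟩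
        rw [happ x hx _ hy]
        exact ZFSet.mem_inter.2 ⟨(hsO x hx _ hy).2.1 t hts u hut, hc0r.2.1 p hp u hup⟩
    · intro x hx y hy y' hy' hne
      rw [happ x hx y hy, happ x hx y' hy']
      refine (ZFSet.eq_empty _).2 fun p hp => ?_
      obtain ⟨h1, h2⟩ := ZFSet.mem_inter.1 hp
      obtain ⟨h3, h4⟩ := ZFSet.mem_inter.1 h1
      obtain ⟨K2, hK2, hpK, hT⟩ := hgen p h4
      exact hne ((hv1 K2 hK2 hT x hx y hy p hpK h3).symm.trans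
        (hv1 K2 hK2 hT x hx y' hy' p hpK (ZFSet.mem_inter.1 h2).1))
    · rintro t ht hfin ⟨O, hO, hOn, hOt⟩
      intro φ v hv
      have hv' : ∀ i, (v i).1 ∈ N' ∧ (v i).2 ∈ N := fun i => ZFSet.pair_mem_prod.1 (ht (hv i))
      obtain ⟨p, hp⟩ : ∃ p, p ∈ O := by
        by_contra hne
        push Not at hne
        exact hOn ((ZFSet.eq_empty _).2 hne)
      have hps : ∀ i, p ∈ app s (ZFSet.pair (v i).1 (v i).2) ∧ p ∈ c0 := by
        intro i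
        have h1 := hOt _ (hv i) hp
        rw [happ _ (hv' i).1 _ (hv' i).2] at h1
        exact ZFSet.mem_inter.1 h1
      obtain ⟨K2, hK2, hpK, hT⟩ := hgen p (hps 0).2
      have h2 := hT.1.el φ (fun i => (v i).1) fun i => (hv' i).1
      have h3 : (fun i => app (val K2 n) (v i).1) = fun i => (v i).2 := by
        funext i
        exact hv1 K2 hK2 hT _ (hv' i).1 _ (hv' i).2 p hpK (hps i).1
      rw [h3] at h2
      exact h2
  · -- com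
    intro z hz v hv
    have hzN := hG'N hz
    have hkey : ∀ p ∈ app σ' (ZFSet.pair z v), v ∈ C ∧ p ∈ v := by
      intro p hp
      rw [happ z hzN v hv] at hp
      obtain ⟨hps, hpc⟩ := ZFSet.mem_inter.1 hp
      have hvC : v ∈ C := by
        obtain ⟨K2, hK2, hpK, hT⟩ := hgen p hpc
        have h1 := (hT.2.2.1 z hz).1
        rwa [hv1 K2 hK2 hT z hzN v hv p hpK hps] at h1
      refine ⟨hvC, hden v ((hCr v (kM.trans _ hC v hvC)).1 hvC) p hpc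
        fun K2 hK2 hpK hT => ?_⟩
      have h1 := (hT.2.2.1 z hz).2
      rwa [hv1 K2 hK2 hT z hzN v hv p hpK hps] at h1
    exact ⟨fun p hp => (hkey p hp).2, fun hvC => (ZFSet.eq_empty _).2 fun p hp =>
      hvC (hkey p hp).1⟩
  · -- keep
    intro z hz p hp
    obtain ⟨hpc, hpk⟩ := ZFSet.mem_inter.1 hp
    have hqz : ZFSet.pair q z ∈ ZFSet.prod N' N := ZFSet.pair_mem_prod.2 ⟨hq, hz⟩
    have hσB : app σ (ZFSet.pair q z) ∈ B := app_mem hbm.func hqz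
    rw [hkk, app_resS hσB] at hpk
    unfold kS at hpk
    obtain ⟨hpP, hpσ⟩ := ZFSet.mem_sep.1 hpk
    rw [happ q hq z hz]
    refine ZFSet.mem_inter.2 ⟨hden _ (hsO q hq z hz) p hpc fun K2 hK2 hpK hT => ?_, hpc⟩
    obtain ⟨x1, η, hx1, hx1n, hη, rfl⟩ := vl_mem_qS.1 hpP
    rw [fst_pair] at hpσ
    have hσn : app σ (ZFSet.pair q z) ≠ ∅ := by
      intro h0
      rw [h0] at hpσ
      exact hx1n ((ZFSet.eq_empty _).2 fun y hy => ZFSet.notMem_empty _ (hpσ hy))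
    have hσP : ZFSet.pair (app σ (ZFSet.pair q z)) η ∈ qS B mu :=
      vl_mem_qS.2 ⟨_, η, hσB, hσn, hη, rfl⟩
    have hσK : ZFSet.pair (app σ (ZFSet.pair q z)) η ∈ K2 := by
      refine hK2.1.up _ hpK _ (vl_mem_qR.2 ⟨hpP, hσP, ?_, ?_⟩)
      · rwa [fst_pair, fst_pair]
      · rw [fst_pair, snd_pair, snd_pair]
        exact hpre.refl η hη x1 hx1
    have hdσ : ∀ x, x ∈ dm σ ↔ x ∈ ZFSet.prod N' N := by
      intro x
      rw [mem_dm]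
      constructor
      · rintro ⟨y, hy⟩
        exact (ZFSet.pair_mem_prod.1 (hbm.func.1 hy)).1
      · intro hx
        exact ⟨_, pair_app_mem hbm.func hx⟩
    have hev : ZFSet.pair q z ∈ evF σ (dm K2) :=
      ZFSet.mem_sep.2 ⟨(hdσ _).2 hqz, mem_dm.2 ⟨η, hσK⟩⟩
    have hsv2 : Svl (evF σ (dm K2)) := by
      intro x y y' h1 h2
      obtain ⟨h3, h4⟩ := ZFSet.mem_sep.1 h1
      obtain ⟨h5, h6⟩ := ZFSet.mem_sep.1 h2
      obtain ⟨hx, hy⟩ := ZFSet.pair_mem_prod.1 ((hdσ _).1 h3)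
      obtain ⟨-, hy'⟩ := ZFSet.pair_mem_prod.1 ((hdσ _).1 h5)
      obtain ⟨η1, h7⟩ := mem_dm.1 h4
      obtain ⟨η2, h8⟩ := mem_dm.1 h6
      obtain ⟨u, huK, hu1, hu2⟩ := hK2.1.dir _ h7 _ h8
      obtain ⟨u1, ζ, hu1B, hu1n, hζ, rfl⟩ := vl_mem_qS.1 (hK2.1.sub huK)
      have h9 := (vl_mem_qR.1 hu1).2.2.1
      have h10 := (vl_mem_qR.1 hu2).2.2.1
      rw [fst_pair, fst_pair] at h9 h10
      by_contra hne
      refine hu1n ((ZFSet.eq_empty _).2 fun w hw => ?_)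
      have h11 : w ∈ app σ (ZFSet.pair x y) ∩ app σ (ZFSet.pair x y') :=
        ZFSet.mem_inter.2 ⟨h9 hw, h10 hw⟩
      rw [hbm.fn x hx y hy y' hy' hne] at h11
      exact ZFSet.notMem_empty _ h11
    have hfz : app (val K2 n) q = z := by
      rw [hT.2.1]
      exact app_eq hsv2 hev
    have h12 := hv2 K2 hK2 hT q hq
    rwa [hfz] at h12

end SF.H68
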