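import Pool.Agent.H3.SF.Tg2

/-! VQE: existence of values. -/

set_option autoImplicit false

open MvPolynomial SC Pool.Agent.H27.LV
open Pool.Agent.H84.SM (dp cr dt)
open Pool.Agent.H92.SF Pool.Agent.H3.SF

namespace Pool.Agent.H68.SF

section Build

variable {k F : Type} [Field k] [Field F] [Algebra k F]

lemma cq_coeff (b : F) (j : ℕ) (a : Fin 2 →₀ ℕ) :
    ((cq b : Q2 F).coeff j).coeff a = if j = 0 ∧ a = 0 then b else 0 := by
  unfold cq
  rw [RingHom.comp_apply, Polynomial.coeff_C]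
  by_cases hj : j = 0
  · subst hj
    rw [if_pos rfl, coeff_C]
    by_cases ha : a = 0
    · subst ha
      simp
    · rw [if_neg (Ne.symm ha), if_neg (fun h => ha h.2)]
  · rw [if_neg hj, if_neg (fun h => hj h.1), coeff_zero]

lemma cq_ne {b : F} (hb : b ≠ 0) : (cq b : Q2 F) ≠ 0 := by
  intro h
  have h1 := cq_coeff b 0 0
  rw [h] at h1
  simp at h1
  exact hb h1.symm

/-- coefficientwise construction -/
lemma exQ {L M : Type} [CommRing L] [CommRing M] (f : L → M) (f0 : f 0 = 0) (V : Q2 L) :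
    ∃ W : Q2 M, ∀ (j : ℕ) (a : Fin 2 →₀ ℕ), (W.coeff j).coeff a = f ((V.coeff j).coeff a) := by
  classical
  refine ⟨∑ i ∈ V.support, Polynomial.monomial i (∑ b ∈ (V.coeff i).support,
    monomial b (f ((V.coeff i).coeff b))), fun j a => ?_⟩
  rw [Polynomial.finsetSum_coeff]
  simp only [Polynomial.coeff_monomial]
  rw [Finset.sum_ite_eq' V.support j]
  by_cases hj : j ∈ V.support
  · rw [if_pos hj, coeff_sum]
    simp only [coeff_monomial]
    rw [Finset.sum_ite_eq' (V.coeff j).support a]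
    by_cases ha : a ∈ (V.coeff j).support
    · rw [if_pos ha]
    · rw [if_neg ha, notMem_support_iff.1 ha, f0]
  · rw [if_neg hj, coeff_zero, Polynomial.notMem_support_iff.1 hj, coeff_zero, f0]

lemma itg_zero (u : Fin 3 → F) : Itg k u (0 : F) := (Bb k u).zero_mem

lemma itg_cq {u : Fin 3 → F} {b : F} (hb : Itg k u b) (j : ℕ) (a : Fin 2 →₀ ℕ) :
    Itg k u (((cq b : Q2 F).coeff j).coeff a) := by
  rw [cq_coeff]
  split_ifs
  · exact hb
  · exact itg_zero u

lemma hm_zero (E : Derivation k F F) (t : ℤ) : Hm k E t (0 : F) := by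
  unfold Hm
  simp

lemma tw_cq {u : Fin 3 → F} {dd : Fin 3 → Derivation k F F} {t : ℤ} {b : F}
    (hb : Hm k (eu u dd) t b) : Tw u dd 0 t (cq b) := by
  refine ⟨fun j => ⟨fun h => ?_, fun h => ?_⟩, fun j a => ?_⟩
  · have hj : j = 0 := by omega
    subst hj
    have : (cq b : Q2 F).coeff 0 = C b := by
      unfold cq
      rw [RingHom.comp_apply, Polynomial.coeff_C_zero]
    rw [this]
    exact isHomogeneous_C _ _
  · unfold cq
    rw [RingHom.comp_apply, Polynomial.coeff_C, if_neg (by omega)]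
  · rw [cq_coeff]
    split_ifs with h
    · rw [h.1]
      simpa using hb
    · exact hm_zero _ _

lemma vl_self {K : Type} [Field K] [Algebra k K] (u : Fin 3 → F) (φ : Bb k u →ₐ[k] K)
    (h : Bb k u) : Vl u φ (h : F) (φ h) :=
  ⟨1, h, by rw [map_one]; exact one_ne_zero, by simp, by rw [map_one, one_mul]⟩

lemma vq_cq {K : Type} [Field K] [Algebra k K] {u : Fin 3 → F} {φ : Bb k u →ₐ[k] K} {a : F} {b : K}
    (h : Vl u φ a b) : VQ u φ (cq a) (cq b) := by
  intro j c
  rw [cq_coeff, cq_coeff]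
  split_ifs
  · exact h
  · exact ⟨1, 0, by rw [map_one]; exact one_ne_zero, by simp, by simp⟩

lemma evc_cq {K : Type} [Field K] [Algebra k K] (D : Derivation k K K) (x : Fin 3 → K) (b : K) :
    evc D x (cq b) = b := by
  simp [evc, ev2, cq]

lemma hm_aeval {u : Fin 3 → F} {dd : Fin 3 → Derivation k F F}
    (hd : ∀ (l : Fin 3) (p : MvPolynomial (Fin 3) k), dd l (aeval u p) = aeval u (pderiv l p))
    {h : ℕ} {H : MvPolynomial (Fin 3) k} (hH : H.IsHomogeneous h) :
    Hm k (eu u dd) h (aeval u H) := by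
  unfold Hm eu
  have h1 := hH.sum_X_mul_pderiv
  have h2 := congrArg (aeval u) h1
  rw [map_sum] at h2
  simp only [map_mul, aeval_X, nsmul_eq_mul, map_natCast] at h2
  rw [Fin.sum_univ_three] at h2 ⊢
  simp only [Derivation.add_apply, Derivation.smul_apply, smul_eq_mul, hd]
  rw [h2, Int.cast_natCast]

end Build

theorem pf_VQE (hHDN : T_HDN) (hSF1 : T_SF1) : T_VQE := by
  classical
  intro k F _ _ _ _ _ u dd δ j0 c0 J hS n τ V hV
  obtain ⟨hHd, -, hint, hder, -, -, -⟩ := hSF1 k F u dd δ j0 c0 J hS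
  have h1 : ∀ (j : ℕ) (a : Fin 2 →₀ ℕ), ∃ (h : ℕ) (H : MvPolynomial (Fin 3) k), H ≠ 0 ∧
      H.IsHomogeneous h ∧ Itg k u (aeval u H * (V.coeff j).coeff a) := fun j a =>
    hHDN k F 3 δ u (eu u dd) hHd _ _ (hV.2 j a)
  choose hh HH H0 Hh HI using h1
  set S : Finset (ℕ × (Fin 2 →₀ ℕ)) := V.support.biUnion fun j =>
    (V.coeff j).support.image fun a => (j, a) with hSd
  set H : MvPolynomial (Fin 3) k := ∏ p ∈ S, HH p.1 p.2 with hH
  have hHne : H ≠ 0 := Finset.prod_ne_zero_iff.2 fun p _ => H0 _ _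
  have hHhom : H.IsHomogeneous (∑ p ∈ S, hh p.1 p.2) :=
    IsHomogeneous.prod _ _ _ fun p _ => Hh _ _
  have hHu : aeval u H ≠ 0 := by
    intro h0
    exact hHne (hS.ind (by rw [h0, map_zero]))
  have hcoef : ∀ (j : ℕ) (a : Fin 2 →₀ ℕ), Itg k u (aeval u H * (V.coeff j).coeff a) := by
    intro j a
    by_cases hc : (V.coeff j).coeff a = 0
    · rw [hc, mul_zero]
      exact itg_zero u
    · have hmem : (j, a) ∈ S := by
        rw [hSd, Finset.mem_biUnion]
        refine ⟨j, ?_, Finset.mem_image.2 ⟨a, mem_support_iff.2 hc, rfl⟩⟩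
        rw [Polynomial.mem_support_iff]
        intro h0
        rw [h0, coeff_zero] at hc
        exact hc rfl
      rw [hH, ← Finset.mul_prod_erase S _ hmem, map_mul, mul_right_comm, mul_comm]
      exact (Bb k u).mul_mem (hint _) (HI j a)
  refine ⟨cq (aeval u H), ⟨cq_ne hHu, ?_, itg_cq (hint H), 0, _, tw_cq (hm_aeval hder hHhom)⟩, ?_⟩
  · unfold cq
    rw [RingHom.comp_apply, Polynomial.natDegree_C]
  · intro K _ _ φ D x hA
    set h : Bb k u := ⟨aeval u H, hint H⟩ with hh'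
    have hφ : φ h ≠ 0 := by
      have h2 := hA (cq (aeval u H)) rfl (cq (φ h)) (vq_cq (vl_self u φ h))
      rwa [evc_cq] at h2
    set f : F → K := fun z => if hz : Itg k u (aeval u H * z) then
      (φ h)⁻¹ * φ ⟨aeval u H * z, hz⟩ else 0 with hf
    have f0 : f 0 = 0 := by
      have hz : Itg k u (aeval u H * 0) := by
        rw [mul_zero]
        exact itg_zero u
      rw [hf]
      simp only
      rw [dif_pos hz]
      have : (⟨aeval u H * 0, hz⟩ : Bb k u) = 0 := Subtype.ext (mul_zero _)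
      rw [this, map_zero, mul_zero]
    obtain ⟨W, hW⟩ := exQ f f0 V
    refine ⟨W, fun j a => ?_⟩
    rw [hW]
    have hz := hcoef j a
    refine ⟨h, ⟨_, hz⟩, hφ, rfl, ?_⟩
    rw [hf]
    simp only
    rw [dif_pos hz, ← mul_assoc, mul_inv_cancel₀ hφ, one_mul]

end Pool.Agent.H68.SF
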